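import Mathlib

/-!
Block V1 (project TM32): from sums over multiples (type I) and bilinear sums (type II) to primes.
A sieve identity with separated variables, cells for the hyperbolic condition, removal of `μ²`.
-/

set_option autoImplicit false

namespace Pool.Agent.TM32

open Finset

/-- `μ² F` -/
noncomputable def V1_G (F : ℕ → ℝ) (n : ℕ) : ℝ := if Squarefree n then F n else 0

theorem V1_absG_le (F : ℕ → ℝ) {B : ℝ} {n : ℕ} (h : |F n| ≤ B) : |V1_G F n| ≤ B := by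
  unfold V1_G; split_ifs
  · exact h
  · simpa using (abs_nonneg _).trans h

/-- no prime factor `< w` -/
def V1_R (w n : ℕ) : Prop := ∀ p, p.Prime → p < w → ¬ p ∣ n

open Classical in
/-- sum over the multiples of `c` whose cofactor has no prime factor `< w` -/
noncomputable def V1_S (G : ℕ → ℝ) (X c w : ℕ) : ℝ :=
  ∑ n ∈ (Icc 1 X).filter (fun n => c ∣ n), (if V1_R w (n / c) then 1 else 0) * G n

theorem V1_R_succ (w n : ℕ) : V1_R (w + 1) n ↔ V1_R w n ∧ (w.Prime → ¬ w ∣ n) := by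
  unfold V1_R
  constructor
  · intro h
    exact ⟨fun p hp hpw => h p hp (by omega), fun hw => h w hw (by omega)⟩
  · rintro ⟨h, h'⟩ p hp hpw
    rcases Nat.lt_succ_iff_lt_or_eq.1 hpw with h1 | rfl
    · exact h p hp h1
    · exact h' hp

theorem V1_step (G : ℕ → ℝ) (X c w : ℕ) (hc : 1 ≤ c) :
    V1_S G X c (w + 1) = V1_S G X c w - (if w.Prime then V1_S G X (c * w) w else 0) := by
  classical
  by_cases hw : w.Prime
  · rw [if_pos hw]
    have key : V1_S G X (c * w) w = ∑ n ∈ (Icc 1 X).filter (fun n => c ∣ n),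
        (if w ∣ n / c ∧ V1_R w (n / c) then 1 else 0) * G n := by
      unfold V1_S
      have hsub : (Icc 1 X).filter (fun n => c * w ∣ n) ⊆ (Icc 1 X).filter (fun n => c ∣ n) := by
        intro n hn
        rw [mem_filter] at hn ⊢
        exact ⟨hn.1, (Dvd.intro w rfl).trans hn.2⟩
      rw [← Finset.sum_subset hsub]
      · refine Finset.sum_congr rfl fun n hn => ?_
        rw [mem_filter, mem_Icc] at hn
        obtain ⟨t, ht⟩ := hn.2
        have hcpos : 0 < c := hc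
        have hwpos : 0 < w := hw.pos
        have e1 : n / c = w * t := by
          rw [ht, mul_assoc, Nat.mul_div_cancel_left _ hcpos]
        have e2 : n / (c * w) = t := by
          rw [ht, Nat.mul_div_cancel_left _ (Nat.mul_pos hcpos hwpos)]
        have e3 : V1_R w t ↔ (w ∣ n / c ∧ V1_R w (n / c)) := by
          rw [e1]
          constructor
          · intro h
            refine ⟨Dvd.intro _ rfl, fun p hp hpw hdvd => ?_⟩
            rcases (Nat.Prime.dvd_mul hp).1 hdvd with h1 | h1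
            · have := (Nat.prime_dvd_prime_iff_eq hp hw).1 h1
              omega
            · exact h p hp hpw h1
          · rintro ⟨_, h⟩ p hp hpw hdvd
            exact h p hp hpw (dvd_mul_of_dvd_right hdvd _)
        rw [e2]
        by_cases h : V1_R w t
        · rw [if_pos h, if_pos (e3.1 h)]
        · rw [if_neg h, if_neg (fun h' => h (e3.2 h'))]
      · intro n hn hn'
        rw [mem_filter] at hn hn'
        rw [if_neg, zero_mul]
        rintro ⟨h1, _⟩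
        apply hn'
        refine ⟨hn.1, ?_⟩
        obtain ⟨t, ht⟩ := h1
        refine ⟨t, ?_⟩
        rw [mul_assoc, ← ht, Nat.mul_div_cancel' hn.2]
    rw [key]
    unfold V1_S
    rw [← Finset.sum_sub_distrib]
    refine Finset.sum_congr rfl fun n _ => ?_
    rw [← sub_mul]
    congr 1
    have h1 := V1_R_succ w (n / c)
    by_cases h2 : V1_R w (n / c)
    · by_cases h3 : w ∣ n / c
      · rw [if_neg (by rw [h1]; exact fun h => h.2 hw h3), if_pos h2, if_pos ⟨h3, h2⟩]; simp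
      · rw [if_pos (by rw [h1]; exact ⟨h2, fun _ => h3⟩), if_pos h2,
          if_neg (fun h => h3 h.1)]; simp
    · rw [if_neg (by rw [h1]; exact fun h => h2 h.1), if_neg h2, if_neg (fun h => h2 h.2)]; simp
  · rw [if_neg hw, sub_zero]
    unfold V1_S
    refine Finset.sum_congr rfl fun n _ => ?_
    have h1 := V1_R_succ w (n / c)
    have h2 : V1_R (w + 1) (n / c) ↔ V1_R w (n / c) := by
      rw [h1]; exact ⟨fun h => h.1, fun h => ⟨h, fun h' => absurd h' hw⟩⟩
    by_cases h3 : V1_R w (n / c)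
    · rw [if_pos h3, if_pos (h2.2 h3)]
    · rw [if_neg h3, if_neg (fun h => h3 (h2.1 h))]

theorem V1_sieve (G : ℕ → ℝ) (X D z : ℕ) : ∀ w, w ≤ z → ∀ c, 1 ≤ c → c < D →
    ∃ (α : ℕ → ℝ) (β : ℕ → ℕ → ℝ), (∀ d, |α d| ≤ 1) ∧ (∀ q m, |β q m| ≤ 1) ∧
    (∀ d, α d ≠ 0 → d < D ∧ c ∣ d ∧ ∀ p, p.Prime → p ∣ d / c → p < w) ∧
    (∀ q m, β q m ≠ 0 → D ≤ m ∧ m ≤ (D - 1) * (z - 1) ∧ c ∣ m ∧
      ∀ p, p.Prime → p ∣ m / c → p < w) ∧
    V1_S G X c w = ∑ d ∈ range D, α d * V1_S G X d 0 +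
      ∑ q ∈ range z, ∑ m ∈ range ((D - 1) * (z - 1) + 1), β q m * V1_S G X m q := by
  intro w
  induction w with
  | zero =>
    intro _ c hc hcD
    refine ⟨fun d => if d = c then 1 else 0, fun _ _ => 0, ?_, ?_, ?_, ?_, ?_⟩
    · intro d; dsimp only; split_ifs <;> simp
    · intro q m; simp
    · intro d hd
      have : d = c := by
        by_contra h
        simp [h] at hd
      subst this
      refine ⟨hcD, dvd_rfl, fun p hp hdvd => ?_⟩
      rw [Nat.div_self hc] at hdvd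
      exact absurd (Nat.dvd_one.1 hdvd) hp.one_lt.ne'
    · intro q m h; exact absurd rfl h
    · simp [hcD]
  | succ w ih =>
    intro hwz c hc hcD
    obtain ⟨α₁, β₁, h1, h2, h3, h4, h5⟩ := ih (by omega) c hc hcD
    by_cases hw : w.Prime
    · by_cases hcw : c * w < D
      · obtain ⟨α₂, β₂, k1, k2, k3, k4, k5⟩ := ih (by omega) (c * w)
          (Nat.mul_pos hc hw.pos) hcw
        have hdisj : ∀ d, c ∣ d → (∀ p, p.Prime → p ∣ d / c → p < w) → c * w ∣ d → False := by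
          intro d _ hd2 hd3
          obtain ⟨t, ht⟩ := hd3
          have e1 : d / c = w * t := by
            rw [ht, mul_assoc, Nat.mul_div_cancel_left _ hc]
          have := hd2 w hw (by rw [e1]; exact Dvd.intro _ rfl)
          omega
        have hprim : ∀ d, c * w ∣ d → (∀ p, p.Prime → p ∣ d / (c * w) → p < w) →
            c ∣ d ∧ ∀ p, p.Prime → p ∣ d / c → p < w + 1 := by
          intro d hd1 hd2
          obtain ⟨t, ht⟩ := hd1
          have e1 : d / c = w * t := by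
            rw [ht, mul_assoc, Nat.mul_div_cancel_left _ hc]
          have e2 : d / (c * w) = t := by
            rw [ht, Nat.mul_div_cancel_left _ (Nat.mul_pos hc hw.pos)]
          refine ⟨⟨w * t, by rw [ht, mul_assoc]⟩, fun p hp hdvd => ?_⟩
          rw [e1] at hdvd
          rcases (Nat.Prime.dvd_mul hp).1 hdvd with h | h
          · have := (Nat.prime_dvd_prime_iff_eq hp hw).1 h
            omega
          · have := hd2 p hp (by rw [e2]; exact h)
            omega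
        refine ⟨fun d => α₁ d - α₂ d, fun q m => β₁ q m - β₂ q m, ?_, ?_, ?_, ?_, ?_⟩
        · intro d
          by_cases ha : α₁ d = 0
          · simpa [ha] using k1 d
          · by_cases hb : α₂ d = 0
            · simpa [hb] using h1 d
            · exact (hdisj d (h3 d ha).2.1 (h3 d ha).2.2 (k3 d hb).2.1).elim
        · intro q m
          by_cases ha : β₁ q m = 0
          · simpa [ha] using k2 q m
          · by_cases hb : β₂ q m = 0
            · simpa [hb] using h2 q m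
            · exact (hdisj m (h4 q m ha).2.2.1 (h4 q m ha).2.2.2 (k4 q m hb).2.2.1).elim
        · intro d hd
          by_cases ha : α₁ d = 0
          · have hb : α₂ d ≠ 0 := by
              intro hb; apply hd; simp [ha, hb]
            have := k3 d hb
            exact ⟨this.1, hprim d this.2.1 this.2.2⟩
          · have := h3 d ha
            exact ⟨this.1, this.2.1, fun p hp hdvd => by have := this.2.2 p hp hdvd; omega⟩
        · intro q m hm
          by_cases ha : β₁ q m = 0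
          · have hb : β₂ q m ≠ 0 := by
              intro hb; apply hm; simp [ha, hb]
            have := k4 q m hb
            exact ⟨this.1, this.2.1, hprim m this.2.2.1 this.2.2.2⟩
          · have := h4 q m ha
            exact ⟨this.1, this.2.1, this.2.2.1,
              fun p hp hdvd => by have := this.2.2.2 p hp hdvd; omega⟩
        · rw [V1_step G X c w hc, if_pos hw, h5, k5]
          simp only [sub_mul, Finset.sum_sub_distrib]
          ring
      · have hβ0 : β₁ w (c * w) = 0 := by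
          by_contra hne
          have := (h4 w (c * w) hne).2.2.2 w hw
            (by rw [Nat.mul_div_cancel_left _ hc])
          omega
        refine ⟨α₁, fun q m => β₁ q m - (if q = w ∧ m = c * w then 1 else 0), h1, ?_, ?_, ?_, ?_⟩
        · intro q m
          by_cases hq : q = w ∧ m = c * w
          · obtain ⟨rfl, rfl⟩ := hq
            simp [hβ0]
          · simpa [hq] using h2 q m
        · intro d hd
          have := h3 d hd
          exact ⟨this.1, this.2.1, fun p hp hdvd => by have := this.2.2 p hp hdvd; omega⟩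
        · intro q m hm
          by_cases hq : q = w ∧ m = c * w
          · obtain ⟨rfl, rfl⟩ := hq
            refine ⟨by omega, ?_, Dvd.intro _ rfl, fun p hp hdvd => ?_⟩
            · exact Nat.mul_le_mul (by omega) (by omega)
            · rw [Nat.mul_div_cancel_left _ hc] at hdvd
              have := (Nat.prime_dvd_prime_iff_eq hp hw).1 hdvd
              omega
          · have hb : β₁ q m ≠ 0 := by
              intro hb; apply hm; simp [hb, hq]
            have := h4 q m hb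
            exact ⟨this.1, this.2.1, this.2.2.1,
              fun p hp hdvd => by have := this.2.2.2 p hp hdvd; omega⟩
        · rw [V1_step G X c w hc, if_pos hw, h5]
          have hw1 : w ∈ range z := by rw [mem_range]; omega
          have hm1 : c * w ∈ range ((D - 1) * (z - 1) + 1) := by
            rw [mem_range]
            have : c * w ≤ (D - 1) * (z - 1) := Nat.mul_le_mul (by omega) (by omega)
            omega
          have e : ∑ q ∈ range z, ∑ m ∈ range ((D - 1) * (z - 1) + 1),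
              (if q = w ∧ m = c * w then (1 : ℝ) else 0) * V1_S G X m q =
              V1_S G X (c * w) w := by
            rw [Finset.sum_eq_single_of_mem w hw1, Finset.sum_eq_single_of_mem (c * w) hm1]
            · simp
            · intro m _ hm; simp [hm]
            · intro q _ hq
              refine Finset.sum_eq_zero fun m _ => ?_
              simp [hq]
          simp only [sub_mul, Finset.sum_sub_distrib]
          rw [e]
          ring
    · refine ⟨α₁, β₁, h1, h2, ?_, ?_, ?_⟩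
      · intro d hd
        have := h3 d hd
        exact ⟨this.1, this.2.1, fun p hp hdvd => by have := this.2.2 p hp hdvd; omega⟩
      · intro q m hm
        have := h4 q m hm
        exact ⟨this.1, this.2.1, this.2.2.1,
          fun p hp hdvd => by have := this.2.2.2 p hp hdvd; omega⟩
      · rw [V1_step G X c w hc, if_neg hw, sub_zero, h5]

/-- the coefficients of the prime variable -/
noncomputable def V1_a (X z : ℕ) (m : ℕ) : ℝ := if m.Prime ∧ z ≤ m ∧ m * z ≤ X then 1 else 0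

open Classical in
/-- the coefficients of the cofactor -/
noncomputable def V1_b (z : ℕ) (k : ℕ) : ℝ :=
  if 2 ≤ k ∧ V1_R z k then 1 / (1 + (k.primeFactors.card : ℝ)) else 0

theorem V1_omega (F : ℕ → ℝ) (X z : ℕ) :
    V1_S (V1_G F) X 1 z = (∑ n ∈ Icc 1 X, if n = 1 then F 1 else 0) +
      ∑ n ∈ (Icc 1 X).filter (fun n => n.Prime ∧ z ≤ n), F n +
      ∑ m ∈ Icc 1 X, ∑ n ∈ (Icc 1 X).filter (fun n => m ∣ n),
        V1_a X z m * V1_b z (n / m) * V1_G F n := by
  classical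
  have hsw : ∑ m ∈ Icc 1 X, ∑ n ∈ (Icc 1 X).filter (fun n => m ∣ n),
        V1_a X z m * V1_b z (n / m) * V1_G F n =
      ∑ n ∈ Icc 1 X, ∑ m ∈ (Icc 1 X).filter (fun m => m ∣ n),
        V1_a X z m * V1_b z (n / m) * V1_G F n := by
    simp only [Finset.sum_filter]
    rw [Finset.sum_comm]
  rw [hsw, Finset.sum_filter, ← Finset.sum_add_distrib, ← Finset.sum_add_distrib]
  have hone : (Icc 1 X).filter (fun n => 1 ∣ n) = Icc 1 X := by
    ext n; simp
  unfold V1_S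
  rw [hone]
  refine Finset.sum_congr rfl fun n hn => ?_
  rw [mem_Icc] at hn
  rw [Nat.div_one]
  by_cases hsq : Squarefree n
  swap
  · have hG : V1_G F n = 0 := by unfold V1_G; rw [if_neg hsq]
    have h1 : n ≠ 1 := by rintro rfl; exact hsq squarefree_one
    have h2 : ¬ n.Prime := fun h => hsq h.squarefree
    simp [hG, h1, h2]
  have hG : V1_G F n = F n := by unfold V1_G; rw [if_pos hsq]
  rw [hG]
  rcases Nat.lt_or_ge 1 n with h1 | h1
  swap
  · have h1' : n = 1 := by omega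
    subst h1'
    have hr : V1_R z 1 := fun p hp _ hdvd => hp.one_lt.ne' (Nat.dvd_one.1 hdvd)
    rw [if_pos hr, if_pos rfl, if_neg (fun h => Nat.not_prime_one h.1)]
    rw [Finset.sum_eq_zero]
    · ring
    · intro m hm
      rw [mem_filter] at hm
      have : m = 1 := Nat.dvd_one.1 hm.2
      subst this
      have : V1_a X z 1 = 0 := by
        unfold V1_a; rw [if_neg (fun h => Nat.not_prime_one h.1)]
      rw [this]; ring
  rw [if_neg (by omega : n ≠ 1)]
  by_cases hp : n.Prime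
  · have hsum : ∑ m ∈ (Icc 1 X).filter (fun m => m ∣ n),
        V1_a X z m * V1_b z (n / m) * F n = 0 := by
      refine Finset.sum_eq_zero fun m hm => ?_
      rw [mem_filter, mem_Icc] at hm
      rcases (Nat.dvd_prime hp).1 hm.2 with h | h
      · subst h
        have : V1_a X z 1 = 0 := by
          unfold V1_a; rw [if_neg (fun h => Nat.not_prime_one h.1)]
        rw [this]; ring
      · subst h
        have : V1_b z (m / m) = 0 := by
          unfold V1_b; rw [if_neg]; rintro ⟨h, _⟩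
          rw [Nat.div_self (by omega)] at h; omega
        rw [this]; ring
    rw [hsum]
    have hiff : V1_R z n ↔ z ≤ n := by
      constructor
      · intro h
        by_contra hlt
        exact h n hp (by omega) dvd_rfl
      · intro h p hp' hpz hdvd
        have := (Nat.prime_dvd_prime_iff_eq hp' hp).1 hdvd
        omega
    by_cases hz : z ≤ n
    · rw [if_pos (hiff.2 hz), if_pos ⟨hp, hz⟩]; ring
    · rw [if_neg (fun h => hz (hiff.1 h)), if_neg (fun h => hz h.2)]; ring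
  · rw [if_neg (show ¬ (n.Prime ∧ z ≤ n) from fun h => hp h.1)]
    by_cases hr : V1_R z n
    · rw [if_pos hr]
      have hsub : n.primeFactors ⊆ (Icc 1 X).filter (fun m => m ∣ n) := by
        intro m hm
        rw [Nat.mem_primeFactors] at hm
        rw [mem_filter, mem_Icc]
        exact ⟨⟨hm.1.pos, (Nat.le_of_dvd (by omega) hm.2.1).trans hn.2⟩, hm.2.1⟩
      rw [← Finset.sum_subset hsub]
      · have hval : ∀ m ∈ n.primeFactors, V1_a X z m * V1_b z (n / m) * F n =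
            1 / (n.primeFactors.card : ℝ) * F n := by
          intro m hm
          rw [Nat.mem_primeFactors] at hm
          obtain ⟨hmp, ⟨k, hk⟩, hn0⟩ := hm
          have hmpos := hmp.pos
          have hdiv : n / m = k := by rw [hk, Nat.mul_div_cancel_left _ hmpos]
          have hk2 : 2 ≤ k := by
            rcases Nat.lt_or_ge k 2 with h | h
            · interval_cases k
              · omega
              · exact absurd (by rw [hk, mul_one]; exact hmp) hp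
            · exact h
          have hkr : V1_R z k := fun p hp' hpz hdvd => hr p hp' hpz (by
            rw [hk]; exact dvd_mul_of_dvd_right hdvd _)
          have hmz : z ≤ m := by
            by_contra hlt
            exact hr m hmp (by omega) (by rw [hk]; exact Dvd.intro _ rfl)
          have hkz : z ≤ k := by
            obtain ⟨p, hp', hpk⟩ := Nat.exists_prime_and_dvd (show k ≠ 1 by omega)
            have h1 : z ≤ p := by
              by_contra hlt
              exact hkr p hp' (by omega) hpk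
            exact h1.trans (Nat.le_of_dvd (by omega) hpk)
          have hmX : m * z ≤ X := by
            calc m * z ≤ m * k := Nat.mul_le_mul_left _ hkz
              _ = n := hk.symm
              _ ≤ X := hn.2
          have ha : V1_a X z m = 1 := by unfold V1_a; rw [if_pos ⟨hmp, hmz, hmX⟩]
          have hcop : Nat.Coprime m k := by
            rw [hk] at hsq
            exact Nat.coprime_of_squarefree_mul hsq
          have hcard : n.primeFactors.card = 1 + k.primeFactors.card := by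
            rw [hk, Nat.Coprime.primeFactors_mul hcop, Finset.card_union_of_disjoint
              hcop.disjoint_primeFactors, hmp.primeFactors, Finset.card_singleton]
          have hb : V1_b z k = 1 / (n.primeFactors.card : ℝ) := by
            unfold V1_b; rw [if_pos ⟨hk2, hkr⟩, hcard]; push_cast; ring
          rw [ha, hdiv, hb]; ring
        rw [Finset.sum_congr rfl hval, Finset.sum_const, nsmul_eq_mul]
        have hne : (n.primeFactors.card : ℝ) ≠ 0 := by
          have : 0 < n.primeFactors.card := by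
            rw [Finset.card_pos]
            exact Nat.nonempty_primeFactors.2 h1
          exact_mod_cast this.ne'
        field_simp
        ring
      · intro m hm hm'
        rw [mem_filter, mem_Icc] at hm
        have : V1_a X z m = 0 := by
          unfold V1_a
          rw [if_neg]
          rintro ⟨h, _⟩
          exact hm' (Nat.mem_primeFactors.2 ⟨h, hm.2, by omega⟩)
        rw [this]; ring
    · rw [if_neg hr, Finset.sum_eq_zero]
      · ring
      · intro m hm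
        rw [mem_filter, mem_Icc] at hm
        obtain ⟨⟨hm1, _⟩, ⟨k, hk⟩⟩ := hm
        have hdiv : n / m = k := by rw [hk, Nat.mul_div_cancel_left _ (by omega)]
        rw [hdiv]
        by_cases ha : m.Prime ∧ z ≤ m ∧ m * z ≤ X
        · have hb : V1_b z k = 0 := by
            unfold V1_b
            rw [if_neg]
            rintro ⟨_, hkr⟩
            apply hr
            intro p hp' hpz hdvd
            rw [hk] at hdvd
            rcases (Nat.Prime.dvd_mul hp').1 hdvd with h | h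
            · have := (Nat.prime_dvd_prime_iff_eq hp' ha.1).1 h
              omega
            · exact hkr p hp' hpz h
          rw [hb]; ring
        · have : V1_a X z m = 0 := by unfold V1_a; rw [if_neg ha]
          rw [this]; ring

theorem V1_reindex (X m : ℕ) (hm : 1 ≤ m) (f : ℕ → ℝ) :
    ∑ n ∈ (Icc 1 X).filter (fun n => m ∣ n), f n = ∑ k ∈ Ioc 0 (X / m), f (m * k) := by
  symm
  refine Finset.sum_nbij' (fun k => m * k) (fun n => n / m) ?_ ?_ ?_ ?_ ?_
  · intro k hk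
    rw [mem_Ioc] at hk
    rw [mem_filter, mem_Icc]
    refine ⟨⟨Nat.mul_pos hm hk.1, ?_⟩, Dvd.intro _ rfl⟩
    have := (Nat.le_div_iff_mul_le hm).1 hk.2
    rwa [mul_comm] at this
  · intro n hn
    rw [mem_filter, mem_Icc] at hn
    rw [mem_Ioc]
    obtain ⟨t, ht⟩ := hn.2
    refine ⟨?_, Nat.div_le_div_right hn.1.2⟩
    rw [ht, Nat.mul_div_cancel_left _ hm]
    rcases Nat.eq_zero_or_pos t with h | h
    · subst h; omega
    · exact h
  · intro k _
    exact Nat.mul_div_cancel_left _ hm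
  · intro n hn
    rw [mem_filter] at hn
    exact Nat.mul_div_cancel' hn.2
  · intro k _; rfl

/-- cells -/
noncomputable def V1_cell (T : ℝ) (m : ℕ) : ℕ := ⌊T * Real.log m⌋₊

noncomputable def V1_E (T : ℝ) (c : ℕ) : ℝ := Real.exp ((c + 1) / T)

theorem V1_lt_E {T : ℝ} (hT : 1 ≤ T) {m : ℕ} (hm : 1 ≤ m) : (m : ℝ) < V1_E T (V1_cell T m) := by
  have hm0 : (0 : ℝ) < m := by exact_mod_cast hm
  have h1 : T * Real.log m < (V1_cell T m : ℝ) + 1 := Nat.lt_floor_add_one _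
  unfold V1_E
  rw [← Real.log_lt_iff_lt_exp hm0, lt_div_iff₀ (by linarith)]
  linarith

theorem V1_E_le {T : ℝ} (hT : 1 ≤ T) {m : ℕ} (hm : 1 ≤ m) :
    V1_E T (V1_cell T m) ≤ m * Real.exp (1 / T) := by
  have hm0 : (0 : ℝ) < m := by exact_mod_cast hm
  have hlog : 0 ≤ Real.log m := Real.log_natCast_nonneg m
  have h1 : (V1_cell T m : ℝ) ≤ T * Real.log m := Nat.floor_le (by positivity)
  unfold V1_E
  calc Real.exp (((V1_cell T m : ℝ) + 1) / T) ≤ Real.exp (Real.log m + 1 / T) := by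
        apply Real.exp_le_exp.2
        rw [add_div]
        have : (V1_cell T m : ℝ) / T ≤ Real.log m := by
          rw [div_le_iff₀ (by linarith)]; linarith
        linarith
    _ = m * Real.exp (1 / T) := by rw [Real.exp_add, Real.exp_log hm0]

theorem V1_K_le {T : ℝ} (hT : 1 ≤ T) (X : ℕ) {m : ℕ} (hm : 1 ≤ m) :
    ⌊(X : ℝ) / V1_E T (V1_cell T m)⌋₊ ≤ X / m := by
  have hm0 : (0 : ℝ) < m := by exact_mod_cast hm
  have hE : 0 < V1_E T (V1_cell T m) := Real.exp_pos _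
  rw [← Nat.floor_div_eq_div (K := ℝ)]
  exact Nat.floor_le_floor (div_le_div_of_nonneg_left (Nat.cast_nonneg _) hm0 (V1_lt_E hT hm).le)

theorem V1_gap {T : ℝ} (hT : 1 ≤ T) (X : ℕ) {m : ℕ} (hm : 1 ≤ m) :
    ((X / m : ℕ) : ℝ) - ⌊(X : ℝ) / V1_E T (V1_cell T m)⌋₊ ≤ (X : ℝ) / T * (1 / m) + 1 := by
  have hm0 : (0 : ℝ) < m := by exact_mod_cast hm
  have hT0 : 0 < T := by linarith
  have hE : 0 < V1_E T (V1_cell T m) := Real.exp_pos _
  have h1 : ((X / m : ℕ) : ℝ) ≤ (X : ℝ) / m := Nat.cast_div_le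
  have h2 : (X : ℝ) / V1_E T (V1_cell T m) < ⌊(X : ℝ) / V1_E T (V1_cell T m)⌋₊ + 1 :=
    Nat.lt_floor_add_one _
  have h3 : (X : ℝ) / m * (1 - 1 / T) ≤ (X : ℝ) / V1_E T (V1_cell T m) := by
    have h4 : (X : ℝ) / (m * Real.exp (1 / T)) ≤ (X : ℝ) / V1_E T (V1_cell T m) :=
      div_le_div_of_nonneg_left (Nat.cast_nonneg _) hE (V1_E_le hT hm)
    have h5 : 1 - 1 / T ≤ Real.exp (-(1 / T)) := by
      have := Real.add_one_le_exp (-(1 / T))
      linarith
    have h6 : (X : ℝ) / (m * Real.exp (1 / T)) = (X : ℝ) / m * Real.exp (-(1 / T)) := by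
      rw [Real.exp_neg]; field_simp
    rw [h6] at h4
    exact (mul_le_mul_of_nonneg_left h5 (by positivity)).trans h4
  have h7 : (X : ℝ) / T * (1 / m) = (X : ℝ) / m - (X : ℝ) / m * (1 - 1 / T) := by
    field_simp; ring
  linarith

theorem V1_harm (X : ℕ) : ∑ m ∈ Icc 1 X, 1 / (m : ℝ) ≤ 1 + Real.log X := by
  have h := harmonic_le_one_add_log X
  have e : ((harmonic X : ℚ) : ℝ) = ∑ m ∈ Icc 1 X, 1 / (m : ℝ) := by
    rw [harmonic_eq_sum_Icc]
    push_cast
    refine Finset.sum_congr rfl fun m _ => by rw [one_div]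
  rw [← e]
  exact h

/-- one cell -/
theorem V1_one (F : ℕ → ℝ) (δ' δ₃ C₂ : ℝ) (hδ' : 0 < δ') (hδ₃ : δ₃ ≤ 1)
    (hC₂ : 0 ≤ C₂)
    (h2 : ∀ (M K : ℕ) (a b : ℕ → ℝ),
      1 ≤ M → 1 ≤ K → (∀ m, |a m| ≤ 1) → (∀ k, |b k| ≤ 1) →
      ((M : ℝ) * K) ^ δ' ≤ M → ((M : ℝ) * K) ^ δ' ≤ K →
      |∑ m ∈ Finset.Icc 1 M, ∑ k ∈ Finset.Icc 1 K,
        a m * b k * (if Squarefree (m * k) then F (m * k) else 0)| ≤ C₂ * ((M : ℝ) * K) ^ (1 - δ₃))
    (X : ℕ) (hX : 1 ≤ X) (a b : ℕ → ℝ) (ha : ∀ m, |a m| ≤ 1) (hb : ∀ k, |b k| ≤ 1)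
    (hlow : ∀ m, a m ≠ 0 → (X : ℝ) ^ (2 * δ') ≤ m ∧ (m : ℝ) ≤ (X : ℝ) ^ (1 - 2 * δ'))
    (hbig : 2 * Real.exp 1 ≤ (X : ℝ) ^ δ') (T : ℝ) (hT : 1 ≤ T) (c : ℕ) :
    |∑ m ∈ (Icc 1 X).filter (fun m => V1_cell T m = c),
      ∑ k ∈ Ioc 0 ⌊(X : ℝ) / V1_E T (V1_cell T m)⌋₊, a m * b k * V1_G F (m * k)| ≤
      C₂ * (X : ℝ) ^ (1 - δ₃) := by
  have hX0 : (0 : ℝ) < X := by exact_mod_cast hX
  have hX1 : (1 : ℝ) ≤ X := by exact_mod_cast hX
  have hT0 : 0 < T := by linarith
  have hrhs : 0 ≤ C₂ * (X : ℝ) ^ (1 - δ₃) := by positivity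
  by_cases hex : ∃ m ∈ (Icc 1 X).filter (fun m => V1_cell T m = c), a m ≠ 0
  swap
  · push Not at hex
    rw [Finset.sum_eq_zero]
    · simpa using hrhs
    · intro m hm
      refine Finset.sum_eq_zero fun k _ => ?_
      rw [hex m hm]; ring
  obtain ⟨m₀, hm₀, ham₀⟩ := hex
  rw [mem_filter, mem_Icc] at hm₀
  obtain ⟨⟨hm₀1, hm₀X⟩, hc⟩ := hm₀
  obtain ⟨hl, hu⟩ := hlow m₀ ham₀
  have hm₀0 : (0 : ℝ) < m₀ := by exact_mod_cast hm₀1
  set E := V1_E T c with hE
  have hE0 : 0 < E := Real.exp_pos _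
  set M := ⌊E⌋₊ with hM
  set K := ⌊(X : ℝ) / E⌋₊ with hK
  have hm₀E : (m₀ : ℝ) < E := by rw [hE, ← hc]; exact V1_lt_E hT hm₀1
  have hEm₀ : E ≤ m₀ * Real.exp (1 / T) := by rw [hE, ← hc]; exact V1_E_le hT hm₀1
  have hm₀M : m₀ ≤ M := Nat.le_floor hm₀E.le
  have hM1 : 1 ≤ M := hm₀1.trans hm₀M
  have hXpow : (0 : ℝ) < (X : ℝ) ^ δ' := by positivity
  have hpow1 : (1 : ℝ) ≤ (X : ℝ) ^ δ' := Real.one_le_rpow hX1 hδ'.le
  have hK2 : (X : ℝ) ^ δ' ≤ K := by
    have h1 : (X : ℝ) / E < K + 1 := Nat.lt_floor_add_one _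
    have h2 : (X : ℝ) / (X ^ (1 - 2 * δ') * Real.exp 1) ≤ X / E := by
      apply div_le_div_of_nonneg_left hX0.le hE0
      refine hEm₀.trans ?_
      apply mul_le_mul hu _ (Real.exp_pos _).le (by positivity)
      apply Real.exp_le_exp.2
      rw [div_le_one hT0]; exact hT
    have h3 : (X : ℝ) / (X ^ (1 - 2 * δ') * Real.exp 1) = X ^ δ' * X ^ δ' / Real.exp 1 := by
      have : (X : ℝ) = X ^ (1 - 2 * δ') * (X ^ δ' * X ^ δ') := by
        rw [← Real.rpow_add hX0, ← Real.rpow_add hX0]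
        conv_lhs => rw [← Real.rpow_one (X : ℝ)]
        congr 1; ring
      have hne : (X : ℝ) ^ (1 - 2 * δ') ≠ 0 := by positivity
      have he : Real.exp 1 ≠ 0 := (Real.exp_pos _).ne'
      rw [div_eq_div_iff (by positivity) he]
      nth_rewrite 1 [this]
      ring
    have h4 : 2 * (X : ℝ) ^ δ' ≤ X ^ δ' * X ^ δ' / Real.exp 1 := by
      rw [le_div_iff₀ (Real.exp_pos _)]
      nlinarith
    linarith
  have hK1 : 1 ≤ K := by
    have : (1 : ℝ) ≤ K := hpow1.trans hK2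
    exact_mod_cast this
  have hMKle : (M : ℝ) * K ≤ X := by
    have h1 : (M : ℝ) ≤ E := Nat.floor_le hE0.le
    have h2 : (K : ℝ) ≤ X / E := Nat.floor_le (by positivity)
    calc (M : ℝ) * K ≤ E * (X / E) := mul_le_mul h1 h2 (Nat.cast_nonneg _) hE0.le
      _ = X := by field_simp
  have hMKpow : ((M : ℝ) * K) ^ δ' ≤ (X : ℝ) ^ δ' :=
    Real.rpow_le_rpow (by positivity) hMKle hδ'.le
  have hMpow : (X : ℝ) ^ δ' ≤ M := by
    have h1 : (X : ℝ) ^ δ' ≤ X ^ (2 * δ') :=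
      Real.rpow_le_rpow_of_exponent_le hX1 (by linarith)
    have h2 : (m₀ : ℝ) ≤ M := by exact_mod_cast hm₀M
    linarith
  have key := h2 M K (fun m => if V1_cell T m = c then a m else 0) b hM1 hK1
    (fun m => by split_ifs; exacts [ha m, by simp]) hb (hMKpow.trans hMpow)
    (hMKpow.trans hK2)
  have e1 : ∑ m ∈ (Icc 1 X).filter (fun m => V1_cell T m = c),
      ∑ k ∈ Ioc 0 ⌊(X : ℝ) / V1_E T (V1_cell T m)⌋₊, a m * b k * V1_G F (m * k) =
      ∑ m ∈ Finset.Icc 1 M, ∑ k ∈ Finset.Icc 1 K,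
        (fun m => if V1_cell T m = c then a m else 0) m * b k *
          (if Squarefree (m * k) then F (m * k) else 0) := by
    have e2 : ∑ m ∈ (Icc 1 X).filter (fun m => V1_cell T m = c),
        ∑ k ∈ Ioc 0 ⌊(X : ℝ) / V1_E T (V1_cell T m)⌋₊, a m * b k * V1_G F (m * k) =
        ∑ m ∈ Icc 1 X, ∑ k ∈ Ioc 0 K,
          (if V1_cell T m = c then a m else 0) * b k * V1_G F (m * k) := by
      rw [Finset.sum_filter]
      refine Finset.sum_congr rfl fun m _ => ?_
      by_cases h : V1_cell T m = c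
      · simp only [h, if_true]; rfl
      · simp [h]
    rw [e2]
    have hbigset : ∀ N, (∀ m, N < m → 1 ≤ m → (if V1_cell T m = c then a m else 0) = 0) →
        ∑ m ∈ Icc 1 N, ∑ k ∈ Ioc 0 K,
          (if V1_cell T m = c then a m else 0) * b k * V1_G F (m * k) =
        ∑ m ∈ Icc 1 (max X M), ∑ k ∈ Ioc 0 K,
          (if V1_cell T m = c then a m else 0) * b k * V1_G F (m * k) ∨ ¬ N ≤ max X M := by
      intro N hN
      by_cases hNm : N ≤ max X M
      · left
        refine Finset.sum_subset (Finset.Icc_subset_Icc_right hNm) fun m hm hm' => ?_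
        rw [mem_Icc] at hm hm'
        refine Finset.sum_eq_zero fun k _ => ?_
        rw [hN m (by omega) hm.1]; ring
      · exact Or.inr hNm
    have h1 := (hbigset X (fun m hm _ => by
      have : a m = 0 := by
        by_contra hne
        have h3 := (hlow m hne).2
        have h4 : (X : ℝ) ^ (1 - 2 * δ') ≤ X := by
          conv_rhs => rw [← Real.rpow_one (X : ℝ)]
          exact Real.rpow_le_rpow_of_exponent_le hX1 (by linarith)
        have h5 : (m : ℝ) ≤ X := h3.trans h4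
        have h6 : m ≤ X := by exact_mod_cast h5
        omega
      simp [this])).resolve_right (by simp)
    have h2' := (hbigset M (fun m hm hm1 => by
      by_cases h : V1_cell T m = c
      · have h3 : (m : ℝ) < E := by rw [hE, ← h]; exact V1_lt_E hT hm1
        have h4 : m ≤ M := Nat.le_floor h3.le
        omega
      · simp [h])).resolve_right (by simp)
    rw [h1, ← h2']
    rfl
  rw [e1]
  refine key.trans ?_
  apply mul_le_mul_of_nonneg_left _ hC₂
  exact Real.rpow_le_rpow (by positivity) hMKle (by linarith)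

theorem V1_bil (F : ℕ → ℝ)
    (h0 : ∀ ε : ℝ, 0 < ε → ∃ C : ℝ, ∀ n : ℕ, 1 ≤ n → |F n| ≤ C * (n : ℝ) ^ ε)
    (h2 : ∀ δ : ℝ, 0 < δ → ∃ δ₃ : ℝ, 0 < δ₃ ∧ ∃ C : ℝ, ∀ (M K : ℕ) (a b : ℕ → ℝ),
      1 ≤ M → 1 ≤ K → (∀ m, |a m| ≤ 1) → (∀ k, |b k| ≤ 1) →
      ((M : ℝ) * K) ^ δ ≤ M → ((M : ℝ) * K) ^ δ ≤ K →
      |∑ m ∈ Finset.Icc 1 M, ∑ k ∈ Finset.Icc 1 K,
        a m * b k * (if Squarefree (m * k) then F (m * k) else 0)| ≤ C * ((M : ℝ) * K) ^ (1 - δ₃))
    (δ : ℝ) (hδ : 0 < δ) :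
    ∃ δ₄ : ℝ, 0 < δ₄ ∧ δ₄ ≤ 1 ∧ ∃ C : ℝ, 0 ≤ C ∧ ∀ (X : ℕ) (a b : ℕ → ℝ), 1 ≤ X →
      (∀ m, |a m| ≤ 1) → (∀ k, |b k| ≤ 1) →
      (∀ m, a m ≠ 0 → (X : ℝ) ^ δ ≤ m ∧ (m : ℝ) ≤ (X : ℝ) ^ (1 - δ)) →
      |∑ m ∈ Icc 1 X, ∑ n ∈ (Icc 1 X).filter (fun n => m ∣ n),
        a m * b (n / m) * V1_G F n| ≤ C * (X : ℝ) ^ (1 - δ₄) := by
  set δ' := min δ 1 / 2 with hδ'def
  have hδ' : 0 < δ' := by rw [hδ'def]; positivity
  have hδ'1 : 2 * δ' ≤ δ := by rw [hδ'def]; have := min_le_left δ 1; linarith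
  obtain ⟨δ₃₀, hδ₃₀, C₂₀, h2'⟩ := h2 δ' hδ'
  set δ₃ := min δ₃₀ 1 with hδ₃def
  have hδ₃ : 0 < δ₃ := by rw [hδ₃def]; positivity
  have hδ₃1 : δ₃ ≤ 1 := min_le_right _ _
  set C₂ := |C₂₀| with hC₂def
  have hC₂ : 0 ≤ C₂ := abs_nonneg _
  set η := min (δ₃ / 4) (2 * δ') with hηdef
  have hη : 0 < η := by rw [hηdef]; positivity
  have hη1 : 4 * η ≤ δ₃ := by have := min_le_left (δ₃ / 4) (2 * δ'); rw [← hηdef] at this; linarith
  have hη2 : η ≤ 2 * δ' := min_le_right _ _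
  set ε := η / 4 with hεdef
  have hε : 0 < ε := by rw [hεdef]; positivity
  obtain ⟨C₀₀, h0'⟩ := h0 ε hε
  set C₀ := |C₀₀| with hC₀def
  have hC₀ : 0 ≤ C₀ := abs_nonneg _
  set x₀ := (2 * Real.exp 1) ^ (1 / δ') with hx₀def
  have hx₀ : 0 ≤ x₀ := by rw [hx₀def]; positivity
  refine ⟨η / 2, by positivity, by linarith, C₂ * (1 / η + 1) + C₀ * (1 + 1 / ε) + C₀ +
    C₀ * x₀ ^ (2 + ε), by positivity, ?_⟩
  intro X a b hX ha hb hsupp
  have hX0 : (0 : ℝ) < X := by exact_mod_cast hX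
  have hX1 : (1 : ℝ) ≤ X := by exact_mod_cast hX
  have hone : (1 : ℝ) ≤ (X : ℝ) ^ (1 - η / 2) := Real.one_le_rpow hX1 (by linarith)
  have hsplit : ∀ A₁ A₂ A₃ A₄ : ℝ, 0 ≤ A₁ → 0 ≤ A₂ → 0 ≤ A₃ → 0 ≤ A₄ →
      (A₁ + A₂ + A₃ ≤ (A₁ + A₂ + A₃ + A₄)) := by intros; linarith
  have hG : ∀ n, 1 ≤ n → n ≤ X → |V1_G F n| ≤ C₀ * (X : ℝ) ^ ε := by
    intro n hn hnX
    apply V1_absG_le
    refine (h0' n hn).trans ?_
    have h1 : (n : ℝ) ^ ε ≤ (X : ℝ) ^ ε :=
      Real.rpow_le_rpow (Nat.cast_nonneg _) (by exact_mod_cast hnX) hε.le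
    calc C₀₀ * (n : ℝ) ^ ε ≤ C₀ * (n : ℝ) ^ ε :=
          mul_le_mul_of_nonneg_right (le_abs_self _) (by positivity)
      _ ≤ C₀ * (X : ℝ) ^ ε := mul_le_mul_of_nonneg_left h1 hC₀
  have hab : ∀ m k, |a m * b k| ≤ 1 := by
    intro m k
    rw [abs_mul]
    exact mul_le_one₀ (ha m) (abs_nonneg _) (hb k)
  have hterm : ∀ m k n, 1 ≤ n → n ≤ X → |a m * b k * V1_G F n| ≤ C₀ * (X : ℝ) ^ ε := by
    intro m k n hn hnX
    rw [abs_mul]
    calc |a m * b k| * |V1_G F n| ≤ 1 * (C₀ * (X : ℝ) ^ ε) :=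
          mul_le_mul (hab m k) (hG n hn hnX) (abs_nonneg _) zero_le_one
      _ = C₀ * (X : ℝ) ^ ε := one_mul _
  by_cases hbig : 2 * Real.exp 1 ≤ (X : ℝ) ^ δ'
  swap
  · -- small `X`
    push Not at hbig
    have hXx : (X : ℝ) ≤ x₀ := by
      have h1 : ((X : ℝ) ^ δ') ^ (1 / δ') ≤ x₀ :=
        Real.rpow_le_rpow (by positivity) hbig.le (by positivity)
      rwa [← Real.rpow_mul hX0.le, mul_one_div_cancel hδ'.ne', Real.rpow_one] at h1
    have h1 : |∑ m ∈ Icc 1 X, ∑ n ∈ (Icc 1 X).filter (fun n => m ∣ n),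
        a m * b (n / m) * V1_G F n| ≤ C₀ * x₀ ^ (2 + ε) := by
      calc |∑ m ∈ Icc 1 X, ∑ n ∈ (Icc 1 X).filter (fun n => m ∣ n),
            a m * b (n / m) * V1_G F n|
          ≤ ∑ m ∈ Icc 1 X, ∑ n ∈ (Icc 1 X).filter (fun n => m ∣ n),
            |a m * b (n / m) * V1_G F n| :=
            (Finset.abs_sum_le_sum_abs _ _).trans
              (Finset.sum_le_sum fun m _ => Finset.abs_sum_le_sum_abs _ _)
        _ ≤ ∑ m ∈ Icc 1 X, ∑ n ∈ Icc 1 X, C₀ * (X : ℝ) ^ ε := by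
            refine Finset.sum_le_sum fun m _ => ?_
            refine (Finset.sum_le_sum_of_subset_of_nonneg (Finset.filter_subset _ _)
              fun _ _ _ => abs_nonneg _).trans ?_
            refine Finset.sum_le_sum fun n hn => ?_
            rw [mem_Icc] at hn
            exact hterm m _ n hn.1 hn.2
        _ = C₀ * (X : ℝ) ^ (2 + ε) := by
            rw [Finset.sum_const, Finset.sum_const, Nat.card_Icc, nsmul_eq_mul, nsmul_eq_mul,
              Real.rpow_add hX0]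
            norm_num
            ring
        _ ≤ C₀ * x₀ ^ (2 + ε) := by
            apply mul_le_mul_of_nonneg_left _ hC₀
            exact Real.rpow_le_rpow hX0.le hXx (by linarith)
    refine h1.trans ?_
    have h3 : 0 ≤ C₂ * (1 / η + 1) + C₀ * (1 + 1 / ε) + C₀ := by positivity
    have h4 : 0 ≤ C₀ * x₀ ^ (2 + ε) := by positivity
    nlinarith
  -- large `X`
  set T := (X : ℝ) ^ η with hTdef
  have hT : 1 ≤ T := Real.one_le_rpow hX1 hη.le
  have hT0 : 0 < T := by linarith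
  have hsupp' : ∀ m, a m ≠ 0 → (X : ℝ) ^ (2 * δ') ≤ m ∧ (m : ℝ) ≤ (X : ℝ) ^ (1 - 2 * δ') := by
    intro m hm
    obtain ⟨h1, h3⟩ := hsupp m hm
    exact ⟨(Real.rpow_le_rpow_of_exponent_le hX1 hδ'1).trans h1,
      h3.trans (Real.rpow_le_rpow_of_exponent_le hX1 (by linarith))⟩
  have h2'' : ∀ (M K : ℕ) (a b : ℕ → ℝ),
      1 ≤ M → 1 ≤ K → (∀ m, |a m| ≤ 1) → (∀ k, |b k| ≤ 1) →
      ((M : ℝ) * K) ^ δ' ≤ M → ((M : ℝ) * K) ^ δ' ≤ K →
      |∑ m ∈ Finset.Icc 1 M, ∑ k ∈ Finset.Icc 1 K,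
        a m * b k * (if Squarefree (m * k) then F (m * k) else 0)| ≤
        C₂ * ((M : ℝ) * K) ^ (1 - δ₃) := by
    intro M K a b hM hK ha hb h3 h4
    refine (h2' M K a b hM hK ha hb h3 h4).trans ?_
    have hMK : (1 : ℝ) ≤ (M : ℝ) * K := by exact_mod_cast Nat.mul_le_mul hM hK
    have h5 : ((M : ℝ) * K) ^ (1 - δ₃₀) ≤ ((M : ℝ) * K) ^ (1 - δ₃) :=
      Real.rpow_le_rpow_of_exponent_le hMK (by have := min_le_left δ₃₀ 1; rw [← hδ₃def] at this; linarith)
    calc C₂₀ * ((M : ℝ) * K) ^ (1 - δ₃₀) ≤ C₂ * ((M : ℝ) * K) ^ (1 - δ₃₀) :=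
          mul_le_mul_of_nonneg_right (le_abs_self _) (by positivity)
      _ ≤ _ := mul_le_mul_of_nonneg_left h5 hC₂
  set Kf : ℕ → ℕ := fun m => ⌊(X : ℝ) / V1_E T (V1_cell T m)⌋₊ with hKf
  have hdec : ∑ m ∈ Icc 1 X, ∑ n ∈ (Icc 1 X).filter (fun n => m ∣ n),
        a m * b (n / m) * V1_G F n =
      ∑ m ∈ Icc 1 X, ∑ k ∈ Ioc 0 (Kf m), a m * b k * V1_G F (m * k) +
      ∑ m ∈ Icc 1 X, ∑ k ∈ Ioc (Kf m) (X / m), a m * b k * V1_G F (m * k) := by
    rw [← Finset.sum_add_distrib]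
    refine Finset.sum_congr rfl fun m hm => ?_
    rw [mem_Icc] at hm
    rw [V1_reindex X m hm.1, Finset.sum_Ioc_consecutive _ (Nat.zero_le _) (V1_K_le hT X hm.1)]
    refine Finset.sum_congr rfl fun k _ => ?_
    rw [Nat.mul_div_cancel_left _ hm.1]
  have hlog : Real.log X ≤ X ^ η / η := Real.log_le_rpow_div hX0.le hη
  have hlog' : Real.log X ≤ X ^ ε / ε := Real.log_le_rpow_div hX0.le hε
  have hlog0 : 0 ≤ Real.log X := Real.log_natCast_nonneg X
  have hfirst : |∑ m ∈ Icc 1 X, ∑ k ∈ Ioc 0 (Kf m), a m * b k * V1_G F (m * k)| ≤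
      C₂ * (1 / η + 1) * (X : ℝ) ^ (1 - η / 2) := by
    set N := ⌊T * Real.log X⌋₊ + 1 with hN
    have hmaps : ∀ m ∈ Icc 1 X, V1_cell T m ∈ range N := by
      intro m hm
      rw [mem_Icc] at hm
      rw [mem_range, hN]
      apply Nat.lt_succ_of_le
      apply Nat.floor_le_floor
      apply mul_le_mul_of_nonneg_left _ hT0.le
      apply Real.log_le_log
      · exact_mod_cast hm.1
      · exact_mod_cast hm.2
    rw [← Finset.sum_fiberwise_of_maps_to hmaps]
    calc |∑ c ∈ range N, ∑ m ∈ (Icc 1 X).filter (fun m => V1_cell T m = c),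
          ∑ k ∈ Ioc 0 (Kf m), a m * b k * V1_G F (m * k)|
        ≤ ∑ c ∈ range N, |∑ m ∈ (Icc 1 X).filter (fun m => V1_cell T m = c),
          ∑ k ∈ Ioc 0 (Kf m), a m * b k * V1_G F (m * k)| := Finset.abs_sum_le_sum_abs _ _
      _ ≤ ∑ c ∈ range N, C₂ * (X : ℝ) ^ (1 - δ₃) := by
          refine Finset.sum_le_sum fun c _ => ?_
          exact V1_one F δ' δ₃ C₂ hδ' hδ₃1 hC₂ h2'' X hX a b ha hb hsupp' hbig T hT c
      _ = N * (C₂ * (X : ℝ) ^ (1 - δ₃)) := by rw [Finset.sum_const, card_range, nsmul_eq_mul]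
      _ ≤ ((1 / η + 1) * (X : ℝ) ^ (2 * η)) * (C₂ * (X : ℝ) ^ (1 - δ₃)) := by
          apply mul_le_mul_of_nonneg_right _ (by positivity)
          have h3 : (N : ℝ) ≤ T * Real.log X + 1 := by
            rw [hN]; push_cast
            have := Nat.floor_le (show 0 ≤ T * Real.log X by positivity)
            linarith
          have h4 : T * Real.log X ≤ X ^ η * (X ^ η / η) :=
            mul_le_mul_of_nonneg_left hlog hT0.le
          have h5 : (X : ℝ) ^ (2 * η) = X ^ η * X ^ η := by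
            rw [two_mul, Real.rpow_add hX0]
          have h6 : (1 : ℝ) ≤ X ^ η * X ^ η := by nlinarith
          rw [h5]
          calc (N : ℝ) ≤ X ^ η * (X ^ η / η) + 1 := by linarith
            _ ≤ X ^ η * (X ^ η / η) + X ^ η * X ^ η := by linarith
            _ = (1 / η + 1) * (X ^ η * X ^ η) := by ring
      _ = C₂ * (1 / η + 1) * ((X : ℝ) ^ (2 * η) * (X : ℝ) ^ (1 - δ₃)) := by ring
      _ ≤ C₂ * (1 / η + 1) * (X : ℝ) ^ (1 - η / 2) := by
          apply mul_le_mul_of_nonneg_left _ (by positivity)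
          rw [← Real.rpow_add hX0]
          exact Real.rpow_le_rpow_of_exponent_le hX1 (by linarith)
  have hsecond : |∑ m ∈ Icc 1 X, ∑ k ∈ Ioc (Kf m) (X / m), a m * b k * V1_G F (m * k)| ≤
      (C₀ * (1 + 1 / ε) + C₀) * (X : ℝ) ^ (1 - η / 2) := by
    have h3 : ∀ m ∈ Icc 1 X, |∑ k ∈ Ioc (Kf m) (X / m), a m * b k * V1_G F (m * k)| ≤
        ((X : ℝ) / T * (1 / m)) * (C₀ * (X : ℝ) ^ ε) +
          (if a m ≠ 0 then 1 else 0) * (C₀ * (X : ℝ) ^ ε) := by
      intro m hm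
      rw [mem_Icc] at hm
      have hm0 : (0 : ℝ) < m := by exact_mod_cast hm.1
      have hB : 0 ≤ C₀ * (X : ℝ) ^ ε := by positivity
      by_cases ham : a m = 0
      · have e0 : ∑ k ∈ Ioc (Kf m) (X / m), a m * b k * V1_G F (m * k) = 0 :=
          Finset.sum_eq_zero fun k _ => by rw [ham]; ring
        rw [e0, abs_zero]
        split_ifs <;> positivity
      · rw [if_pos ham]
        calc |∑ k ∈ Ioc (Kf m) (X / m), a m * b k * V1_G F (m * k)|
            ≤ ∑ k ∈ Ioc (Kf m) (X / m), |a m * b k * V1_G F (m * k)| :=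
              Finset.abs_sum_le_sum_abs _ _
          _ ≤ ∑ k ∈ Ioc (Kf m) (X / m), C₀ * (X : ℝ) ^ ε := by
              refine Finset.sum_le_sum fun k hk => ?_
              rw [mem_Ioc] at hk
              have hk1 : 1 ≤ k := by omega
              have hk2 : m * k ≤ X := by
                have := (Nat.le_div_iff_mul_le hm.1).1 hk.2
                rwa [mul_comm] at this
              exact hterm m k (m * k) (Nat.mul_pos hm.1 hk1) hk2
          _ = (((X / m : ℕ) : ℝ) - Kf m) * (C₀ * (X : ℝ) ^ ε) := by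
              rw [Finset.sum_const, Nat.card_Ioc, nsmul_eq_mul,
                Nat.cast_sub (V1_K_le hT X hm.1)]
          _ ≤ ((X : ℝ) / T * (1 / m) + 1) * (C₀ * (X : ℝ) ^ ε) :=
              mul_le_mul_of_nonneg_right (V1_gap hT X hm.1) hB
          _ = _ := by ring
    have h4 : ∑ m ∈ Icc 1 X, (if a m ≠ 0 then (1 : ℝ) else 0) ≤ (X : ℝ) ^ (1 - η) := by
      rw [← Finset.sum_filter, Finset.sum_const, nsmul_eq_mul, mul_one]
      have hsub : (Icc 1 X).filter (fun m => a m ≠ 0) ⊆ Icc 1 ⌊(X : ℝ) ^ (1 - η)⌋₊ := by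
        intro m hm
        rw [mem_filter, mem_Icc] at hm
        rw [mem_Icc]
        refine ⟨hm.1.1, Nat.le_floor ?_⟩
        exact (hsupp' m hm.2).2.trans (Real.rpow_le_rpow_of_exponent_le hX1 (by linarith))
      have h5 := Finset.card_le_card hsub
      rw [Nat.card_Icc, Nat.add_sub_cancel] at h5
      calc (((Icc 1 X).filter (fun m => a m ≠ 0)).card : ℝ) ≤ (⌊(X : ℝ) ^ (1 - η)⌋₊ : ℝ) := by
            exact_mod_cast h5
        _ ≤ (X : ℝ) ^ (1 - η) := Nat.floor_le (by positivity)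
    calc |∑ m ∈ Icc 1 X, ∑ k ∈ Ioc (Kf m) (X / m), a m * b k * V1_G F (m * k)|
        ≤ ∑ m ∈ Icc 1 X, |∑ k ∈ Ioc (Kf m) (X / m), a m * b k * V1_G F (m * k)| :=
          Finset.abs_sum_le_sum_abs _ _
      _ ≤ ∑ m ∈ Icc 1 X, (((X : ℝ) / T * (1 / m)) * (C₀ * (X : ℝ) ^ ε) +
          (if a m ≠ 0 then 1 else 0) * (C₀ * (X : ℝ) ^ ε)) := Finset.sum_le_sum h3
      _ = (X : ℝ) / T * (∑ m ∈ Icc 1 X, 1 / (m : ℝ)) * (C₀ * (X : ℝ) ^ ε) +
          (∑ m ∈ Icc 1 X, (if a m ≠ 0 then (1 : ℝ) else 0)) * (C₀ * (X : ℝ) ^ ε) := by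
          rw [Finset.sum_add_distrib, Finset.mul_sum, Finset.sum_mul, Finset.sum_mul]
      _ ≤ (X : ℝ) / T * ((1 + 1 / ε) * (X : ℝ) ^ ε) * (C₀ * (X : ℝ) ^ ε) +
          (X : ℝ) ^ (1 - η) * (C₀ * (X : ℝ) ^ ε) := by
          have h6 : ∑ m ∈ Icc 1 X, 1 / (m : ℝ) ≤ (1 + 1 / ε) * (X : ℝ) ^ ε := by
            refine (V1_harm X).trans ?_
            have h7 : (1 : ℝ) ≤ (X : ℝ) ^ ε := Real.one_le_rpow hX1 hε.le
            calc 1 + Real.log X ≤ (X : ℝ) ^ ε + X ^ ε / ε := by linarith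
              _ = (1 + 1 / ε) * (X : ℝ) ^ ε := by ring
          gcongr
      _ = C₀ * (1 + 1 / ε) * (X : ℝ) ^ (1 - η / 2) + C₀ * (X : ℝ) ^ (1 - η + ε) := by
          have e1 : (X : ℝ) / T = (X : ℝ) ^ (1 - η) := by
            rw [hTdef, Real.rpow_sub hX0, Real.rpow_one]
          have e2 : (X : ℝ) ^ (1 - η / 2) = (X : ℝ) ^ (1 - η) * X ^ ε * X ^ ε := by
            rw [← Real.rpow_add hX0, ← Real.rpow_add hX0]
            congr 1; rw [hεdef]; ring
          rw [e1, e2, Real.rpow_add hX0]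
          ring
      _ ≤ C₀ * (1 + 1 / ε) * (X : ℝ) ^ (1 - η / 2) + C₀ * (X : ℝ) ^ (1 - η / 2) := by
          have h8 : (X : ℝ) ^ (1 - η + ε) ≤ (X : ℝ) ^ (1 - η / 2) :=
            Real.rpow_le_rpow_of_exponent_le hX1 (by rw [hεdef]; linarith)
          have := mul_le_mul_of_nonneg_left h8 hC₀
          linarith
      _ = _ := by ring
  rw [hdec]
  refine (abs_add_le _ _).trans ?_
  have h9 : 0 ≤ C₀ * x₀ ^ (2 + ε) * (X : ℝ) ^ (1 - η / 2) := by positivity
  calc _ ≤ C₂ * (1 / η + 1) * (X : ℝ) ^ (1 - η / 2) +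
        (C₀ * (1 + 1 / ε) + C₀) * (X : ℝ) ^ (1 - η / 2) := add_le_add hfirst hsecond
    _ ≤ _ := by
        have : (C₂ * (1 / η + 1) + C₀ * (1 + 1 / ε) + C₀ + C₀ * x₀ ^ (2 + ε)) *
            (X : ℝ) ^ (1 - η / 2) = C₂ * (1 / η + 1) * (X : ℝ) ^ (1 - η / 2) +
            (C₀ * (1 + 1 / ε) + C₀) * (X : ℝ) ^ (1 - η / 2) +
            C₀ * x₀ ^ (2 + ε) * (X : ℝ) ^ (1 - η / 2) := by ring
        rw [this]
        linarith

theorem V1_sq_dvd {s r e : ℕ} (hs : s ≠ 0) (hr : Squarefree r) (h : e ^ 2 ∣ s ^ 2 * r) : e ∣ s := by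
  rcases Nat.eq_zero_or_pos e with he | he
  · subst he
    rw [zero_pow two_ne_zero, zero_dvd_iff] at h
    rcases mul_eq_zero.1 h with h1 | h1
    · exact absurd (pow_eq_zero_iff two_ne_zero |>.1 h1) hs
    · subst h1; exact absurd hr not_squarefree_zero
  · obtain ⟨g, e', s', hg, hcop, rfl, rfl⟩ := Nat.exists_coprime' (m := e) (n := s)
      (Nat.gcd_pos_of_pos_left _ he)
    have h1 : e' ^ 2 ∣ s' ^ 2 * r := by
      have h2 : (e' * g) ^ 2 = e' ^ 2 * g ^ 2 := by ring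
      have h3 : (s' * g) ^ 2 * r = s' ^ 2 * r * g ^ 2 := by ring
      rw [h2, h3] at h
      exact Nat.dvd_of_mul_dvd_mul_right (by positivity) h
    have h4 : e' ^ 2 ∣ r := by
      have : Nat.Coprime (e' ^ 2) (s' ^ 2) := Nat.Coprime.pow _ _ hcop
      exact this.dvd_of_dvd_mul_left h1
    have h5 : e' = 1 := by
      have := hr e' (by rw [← pow_two]; exact h4)
      exact Nat.isUnit_iff.1 this
    subst h5
    exact ⟨s', by ring⟩

theorem V1_musq {n X : ℕ} (hn : 1 ≤ n) (hnX : n ≤ X) :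
    (if Squarefree n then (1 : ℝ) else 0) =
      ∑ e ∈ Icc 1 X, if e ^ 2 ∣ n then ((ArithmeticFunction.moebius e : ℤ) : ℝ) else 0 := by
  obtain ⟨r, s, hsr, hr⟩ := Nat.sq_mul_squarefree n
  have hs0 : s ≠ 0 := by
    rintro rfl
    simp at hsr; omega
  have hsn : s ≤ n := by
    rw [← hsr]
    have hr0 : r ≠ 0 := fun h => by subst h; exact not_squarefree_zero hr
    have : 1 ≤ r := Nat.pos_of_ne_zero hr0
    nlinarith [Nat.pos_of_ne_zero hs0]
  have hiff : ∀ e, e ^ 2 ∣ n ↔ e ∣ s := by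
    intro e
    constructor
    · intro h; rw [← hsr] at h; exact V1_sq_dvd hs0 hr h
    · intro h; rw [← hsr]; exact dvd_mul_of_dvd_left (pow_dvd_pow_of_dvd h 2) _
  rw [← Finset.sum_filter]
  have hset : (Icc 1 X).filter (fun e => e ^ 2 ∣ n) = s.divisors := by
    ext e
    rw [mem_filter, mem_Icc, Nat.mem_divisors, hiff]
    constructor
    · rintro ⟨_, h⟩; exact ⟨h, hs0⟩
    · rintro ⟨h, _⟩
      exact ⟨⟨Nat.pos_of_dvd_of_pos h (Nat.pos_of_ne_zero hs0),
        (Nat.le_of_dvd (Nat.pos_of_ne_zero hs0) h).trans (hsn.trans hnX)⟩, h⟩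
  rw [hset]
  have h1 : ∑ e ∈ s.divisors, (ArithmeticFunction.moebius e : ℤ) = if s = 1 then 1 else 0 := by
    rw [← ArithmeticFunction.coe_mul_zeta_apply, ArithmeticFunction.moebius_mul_coe_zeta,
      ArithmeticFunction.one_apply]
  have h2 : (∑ e ∈ s.divisors, ((ArithmeticFunction.moebius e : ℤ) : ℝ)) =
      if s = 1 then 1 else 0 := by
    have := congrArg (fun t : ℤ => (t : ℝ)) h1
    push_cast at this
    exact this
  rw [h2]
  by_cases hs1 : s = 1
  · rw [if_pos hs1, if_pos]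
    subst hs1
    rw [← hsr]; simpa using hr
  · rw [if_neg hs1, if_neg]
    intro hsq
    apply hs1
    have := hsq s (by rw [← hsr, ← pow_two]; exact Dvd.intro _ rfl)
    exact Nat.isUnit_iff.1 this

theorem V1_type1 (F : ℕ → ℝ)
    (h0 : ∀ ε : ℝ, 0 < ε → ∃ C : ℝ, ∀ n : ℕ, 1 ≤ n → |F n| ≤ C * (n : ℝ) ^ ε)
    (h1 : ∃ δ₁ : ℝ, 0 < δ₁ ∧ ∃ δ₂ : ℝ, 0 < δ₂ ∧ ∃ C : ℝ, ∀ X : ℝ, 1 ≤ X → ∀ M : ℕ, 1 ≤ M →
      (M : ℝ) ≤ X ^ δ₁ → ∀ Y : ℕ, (Y : ℝ) ≤ X →
      |∑ n ∈ (Finset.Icc 1 Y).filter (fun n => M ∣ n), F n| ≤ C * X ^ (1 - δ₂)) :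
    ∃ δ₁ : ℝ, 0 < δ₁ ∧ δ₁ ≤ 1 ∧ ∃ C : ℝ, 0 ≤ C ∧ ∀ X : ℕ, 1 ≤ X → ∀ d : ℕ, 1 ≤ d →
      (d : ℝ) ≤ (X : ℝ) ^ δ₁ →
      |∑ n ∈ (Icc 1 X).filter (fun n => d ∣ n), V1_G F n| ≤ C * (X : ℝ) ^ (1 - 2 * δ₁) := by
  obtain ⟨δ₁₀, hδ₁₀, δ₂₀, hδ₂₀, C₁₀, h1'⟩ := h1
  set η := min (min (δ₁₀ / 3) (δ₂₀ / 3)) 1 with hηdef
  have hη : 0 < η := by rw [hηdef]; positivity
  have hη1 : 3 * η ≤ δ₁₀ := by
    have h1 := min_le_left (min (δ₁₀ / 3) (δ₂₀ / 3)) 1
    have h2 := min_le_left (δ₁₀ / 3) (δ₂₀ / 3)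
    rw [← hηdef] at h1; linarith
  have hη2 : 3 * η ≤ δ₂₀ := by
    have h1 := min_le_left (min (δ₁₀ / 3) (δ₂₀ / 3)) 1
    have h2 := min_le_right (δ₁₀ / 3) (δ₂₀ / 3)
    rw [← hηdef] at h1; linarith
  have hη3 : η ≤ 1 := min_le_right _ _
  set ε := η / 2 with hεdef
  have hε : 0 < ε := by rw [hεdef]; positivity
  obtain ⟨C₀₀, h0'⟩ := h0 ε hε
  set C₀ := |C₀₀| with hC₀def
  have hC₀ : 0 ≤ C₀ := abs_nonneg _
  set C₁ := |C₁₀| with hC₁def
  have hC₁ : 0 ≤ C₁ := abs_nonneg _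
  refine ⟨η / 4, by positivity, by linarith, C₁ + 2 * C₀, by positivity, ?_⟩
  intro X hX d hd hdX
  have hX0 : (0 : ℝ) < X := by exact_mod_cast hX
  have hX1 : (1 : ℝ) ≤ X := by exact_mod_cast hX
  have hFb : ∀ n, 1 ≤ n → n ≤ X → |F n| ≤ C₀ * (X : ℝ) ^ ε := by
    intro n hn hnX
    refine (h0' n hn).trans ?_
    have h1 : (n : ℝ) ^ ε ≤ (X : ℝ) ^ ε :=
      Real.rpow_le_rpow (Nat.cast_nonneg _) (by exact_mod_cast hnX) hε.le
    calc C₀₀ * (n : ℝ) ^ ε ≤ C₀ * (n : ℝ) ^ ε :=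
          mul_le_mul_of_nonneg_right (le_abs_self _) (by positivity)
      _ ≤ C₀ * (X : ℝ) ^ ε := mul_le_mul_of_nonneg_left h1 hC₀
  -- the expansion
  have hexp : ∑ n ∈ (Icc 1 X).filter (fun n => d ∣ n), V1_G F n =
      ∑ e ∈ Icc 1 X, ((ArithmeticFunction.moebius e : ℤ) : ℝ) *
        ∑ n ∈ (Icc 1 X).filter (fun n => Nat.lcm d (e ^ 2) ∣ n), F n := by
    have e1 : ∀ n ∈ (Icc 1 X).filter (fun n => d ∣ n), V1_G F n =
        ∑ e ∈ Icc 1 X, (if e ^ 2 ∣ n then ((ArithmeticFunction.moebius e : ℤ) : ℝ) else 0) *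
          F n := by
      intro n hn
      rw [mem_filter, mem_Icc] at hn
      rw [← Finset.sum_mul, ← V1_musq hn.1.1 hn.1.2]
      unfold V1_G
      split_ifs <;> simp
    rw [Finset.sum_congr rfl e1, Finset.sum_comm]
    refine Finset.sum_congr rfl fun e _ => ?_
    rw [Finset.mul_sum]
    have e2 : (Icc 1 X).filter (fun n => Nat.lcm d (e ^ 2) ∣ n) =
        ((Icc 1 X).filter (fun n => d ∣ n)).filter (fun n => e ^ 2 ∣ n) := by
      ext n
      simp only [mem_filter, Nat.lcm_dvd_iff, and_assoc]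
    rw [e2, Finset.sum_filter (s := (Icc 1 X).filter (fun n => d ∣ n))]
    refine Finset.sum_congr rfl fun n _ => ?_
    split_ifs <;> simp
  rw [hexp]
  have hμ : ∀ e, |((ArithmeticFunction.moebius e : ℤ) : ℝ)| ≤ 1 := by
    intro e
    have := ArithmeticFunction.abs_moebius_le_one (n := e)
    exact_mod_cast this
  set k := ⌊(X : ℝ) ^ η⌋₊ with hk
  have hpow1 : (1 : ℝ) ≤ (X : ℝ) ^ η := Real.one_le_rpow hX1 hη.le
  have hk1 : 1 ≤ k := Nat.le_floor (by simpa using hpow1)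
  have hkle : (k : ℝ) ≤ (X : ℝ) ^ η := Nat.floor_le (by positivity)
  have hkX : k ≤ X := by
    have : (k : ℝ) ≤ X := by
      refine hkle.trans ?_
      conv_rhs => rw [← Real.rpow_one (X : ℝ)]
      exact Real.rpow_le_rpow_of_exponent_le hX1 hη3
    exact_mod_cast this
  have hk2 : (X : ℝ) ^ η ≤ 2 * k := by
    have h2 : (X : ℝ) ^ η < k + 1 := Nat.lt_floor_add_one _
    have h3 : (1 : ℝ) ≤ k := by exact_mod_cast hk1
    linarith
  have hIcc : Icc 1 X = Ioc 0 X := rfl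
  have hsplit : ∑ e ∈ Icc 1 X, ((ArithmeticFunction.moebius e : ℤ) : ℝ) *
        ∑ n ∈ (Icc 1 X).filter (fun n => Nat.lcm d (e ^ 2) ∣ n), F n =
      ∑ e ∈ Ioc 0 k, ((ArithmeticFunction.moebius e : ℤ) : ℝ) *
        ∑ n ∈ (Icc 1 X).filter (fun n => Nat.lcm d (e ^ 2) ∣ n), F n +
      ∑ e ∈ Ioc k X, ((ArithmeticFunction.moebius e : ℤ) : ℝ) *
        ∑ n ∈ (Icc 1 X).filter (fun n => Nat.lcm d (e ^ 2) ∣ n), F n := by
    rw [Finset.sum_Ioc_consecutive _ (Nat.zero_le _) hkX, ← hIcc]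
  rw [hsplit]
  have hA : |∑ e ∈ Ioc 0 k, ((ArithmeticFunction.moebius e : ℤ) : ℝ) *
        ∑ n ∈ (Icc 1 X).filter (fun n => Nat.lcm d (e ^ 2) ∣ n), F n| ≤
      C₁ * (X : ℝ) ^ (1 - 2 * (η / 4)) := by
    calc |∑ e ∈ Ioc 0 k, ((ArithmeticFunction.moebius e : ℤ) : ℝ) *
          ∑ n ∈ (Icc 1 X).filter (fun n => Nat.lcm d (e ^ 2) ∣ n), F n|
        ≤ ∑ e ∈ Ioc 0 k, |((ArithmeticFunction.moebius e : ℤ) : ℝ) *
          ∑ n ∈ (Icc 1 X).filter (fun n => Nat.lcm d (e ^ 2) ∣ n), F n| :=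
          Finset.abs_sum_le_sum_abs _ _
      _ ≤ ∑ e ∈ Ioc 0 k, C₁ * (X : ℝ) ^ (1 - δ₂₀) := by
          refine Finset.sum_le_sum fun e he => ?_
          rw [mem_Ioc] at he
          rw [abs_mul]
          have he0 : 1 ≤ e := he.1
          have hlcm1 : 1 ≤ Nat.lcm d (e ^ 2) := Nat.lcm_pos hd (by positivity)
          have hlcm2 : ((Nat.lcm d (e ^ 2) : ℕ) : ℝ) ≤ (X : ℝ) ^ δ₁₀ := by
            have h2 : Nat.lcm d (e ^ 2) ≤ d * e ^ 2 :=
              Nat.le_of_dvd (by positivity) (Nat.lcm_dvd_mul _ _)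
            have h3 : (e : ℝ) ≤ (X : ℝ) ^ η := le_trans (by exact_mod_cast he.2) hkle
            calc ((Nat.lcm d (e ^ 2) : ℕ) : ℝ) ≤ (d : ℝ) * (e : ℝ) ^ 2 := by exact_mod_cast h2
              _ ≤ (X : ℝ) ^ (η / 4) * ((X : ℝ) ^ η) ^ 2 := by gcongr
              _ = (X : ℝ) ^ (η / 4 + 2 * η) := by
                  rw [Real.rpow_add hX0, two_mul η, Real.rpow_add hX0, pow_two]
              _ ≤ (X : ℝ) ^ δ₁₀ := Real.rpow_le_rpow_of_exponent_le hX1 (by linarith)
          have h4 := h1' X hX1 _ hlcm1 hlcm2 X le_rfl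
          have h5 : C₁₀ * (X : ℝ) ^ (1 - δ₂₀) ≤ C₁ * (X : ℝ) ^ (1 - δ₂₀) :=
            mul_le_mul_of_nonneg_right (le_abs_self _) (by positivity)
          calc |((ArithmeticFunction.moebius e : ℤ) : ℝ)| *
                |∑ n ∈ (Icc 1 X).filter (fun n => Nat.lcm d (e ^ 2) ∣ n), F n|
              ≤ 1 * (C₁ * (X : ℝ) ^ (1 - δ₂₀)) :=
                mul_le_mul (hμ e) (h4.trans h5) (abs_nonneg _) zero_le_one
            _ = _ := one_mul _
      _ = k * (C₁ * (X : ℝ) ^ (1 - δ₂₀)) := by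
          rw [Finset.sum_const, Nat.card_Ioc, nsmul_eq_mul, Nat.sub_zero]
      _ ≤ (X : ℝ) ^ η * (C₁ * (X : ℝ) ^ (1 - δ₂₀)) :=
          mul_le_mul_of_nonneg_right hkle (by positivity)
      _ = C₁ * (X : ℝ) ^ (η + (1 - δ₂₀)) := by rw [Real.rpow_add hX0]; ring
      _ ≤ C₁ * (X : ℝ) ^ (1 - 2 * (η / 4)) := by
          apply mul_le_mul_of_nonneg_left _ hC₁
          exact Real.rpow_le_rpow_of_exponent_le hX1 (by linarith)
  have hB : |∑ e ∈ Ioc k X, ((ArithmeticFunction.moebius e : ℤ) : ℝ) *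
        ∑ n ∈ (Icc 1 X).filter (fun n => Nat.lcm d (e ^ 2) ∣ n), F n| ≤
      2 * C₀ * (X : ℝ) ^ (1 - 2 * (η / 4)) := by
    calc |∑ e ∈ Ioc k X, ((ArithmeticFunction.moebius e : ℤ) : ℝ) *
          ∑ n ∈ (Icc 1 X).filter (fun n => Nat.lcm d (e ^ 2) ∣ n), F n|
        ≤ ∑ e ∈ Ioc k X, |((ArithmeticFunction.moebius e : ℤ) : ℝ) *
          ∑ n ∈ (Icc 1 X).filter (fun n => Nat.lcm d (e ^ 2) ∣ n), F n| :=
          Finset.abs_sum_le_sum_abs _ _
      _ ≤ ∑ e ∈ Ioc k X, (X : ℝ) * ((e : ℝ) ^ 2)⁻¹ * (C₀ * (X : ℝ) ^ ε) := by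
          refine Finset.sum_le_sum fun e he => ?_
          rw [mem_Ioc] at he
          rw [abs_mul]
          have he0 : 1 ≤ e := by omega
          have he2 : 1 ≤ e ^ 2 := Nat.one_le_pow _ _ he0
          have h3 : |∑ n ∈ (Icc 1 X).filter (fun n => Nat.lcm d (e ^ 2) ∣ n), F n| ≤
              (X : ℝ) * ((e : ℝ) ^ 2)⁻¹ * (C₀ * (X : ℝ) ^ ε) := by
            calc |∑ n ∈ (Icc 1 X).filter (fun n => Nat.lcm d (e ^ 2) ∣ n), F n|
                ≤ ∑ n ∈ (Icc 1 X).filter (fun n => Nat.lcm d (e ^ 2) ∣ n), |F n| :=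
                  Finset.abs_sum_le_sum_abs _ _
              _ ≤ ∑ n ∈ (Icc 1 X).filter (fun n => e ^ 2 ∣ n), |F n| := by
                  apply Finset.sum_le_sum_of_subset_of_nonneg
                  · intro n hn
                    rw [mem_filter] at hn ⊢
                    exact ⟨hn.1, (Nat.lcm_dvd_iff.1 hn.2).2⟩
                  · intro n _ _; exact abs_nonneg _
              _ ≤ ∑ n ∈ (Icc 1 X).filter (fun n => e ^ 2 ∣ n), C₀ * (X : ℝ) ^ ε := by
                  refine Finset.sum_le_sum fun n hn => ?_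
                  rw [mem_filter, mem_Icc] at hn
                  exact hFb n hn.1.1 hn.1.2
              _ = ((X / e ^ 2 : ℕ) : ℝ) * (C₀ * (X : ℝ) ^ ε) := by
                  rw [V1_reindex X (e ^ 2) he2, Finset.sum_const, Nat.card_Ioc, nsmul_eq_mul,
                    Nat.sub_zero]
              _ ≤ (X : ℝ) * ((e : ℝ) ^ 2)⁻¹ * (C₀ * (X : ℝ) ^ ε) := by
                  apply mul_le_mul_of_nonneg_right _ (by positivity)
                  have h6 : ((X / e ^ 2 : ℕ) : ℝ) ≤ (X : ℝ) / ((e ^ 2 : ℕ) : ℝ) := Nat.cast_div_le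
                  rw [Nat.cast_pow, div_eq_mul_inv] at h6
                  exact h6
          calc |((ArithmeticFunction.moebius e : ℤ) : ℝ)| *
                |∑ n ∈ (Icc 1 X).filter (fun n => Nat.lcm d (e ^ 2) ∣ n), F n|
              ≤ 1 * ((X : ℝ) * ((e : ℝ) ^ 2)⁻¹ * (C₀ * (X : ℝ) ^ ε)) :=
                mul_le_mul (hμ e) h3 (abs_nonneg _) zero_le_one
            _ = _ := one_mul _
      _ = (∑ e ∈ Ioc k X, ((e : ℝ) ^ 2)⁻¹) * (X * (C₀ * (X : ℝ) ^ ε)) := by
          rw [Finset.sum_mul]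
          refine Finset.sum_congr rfl fun e _ => by ring
      _ ≤ (k : ℝ)⁻¹ * (X * (C₀ * (X : ℝ) ^ ε)) := by
          apply mul_le_mul_of_nonneg_right _ (by positivity)
          have h7 := sum_Ioc_inv_sq_le_sub (α := ℝ) (k := k) (n := X) (by omega) hkX
          have h8 : (0 : ℝ) ≤ (X : ℝ)⁻¹ := by positivity
          linarith
      _ ≤ (2 * ((X : ℝ) ^ η)⁻¹) * (X * (C₀ * (X : ℝ) ^ ε)) := by
          apply mul_le_mul_of_nonneg_right _ (by positivity)
          have hkpos : (0 : ℝ) < k := by exact_mod_cast hk1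
          have hXη : (0 : ℝ) < (X : ℝ) ^ η := by positivity
          rw [inv_le_comm₀ hkpos (by positivity), mul_inv, inv_inv]
          linarith
      _ = 2 * C₀ * (X : ℝ) ^ (1 - 2 * (η / 4)) := by
          have e1 : (X : ℝ) ^ (1 - 2 * (η / 4)) = X * X ^ ε * ((X : ℝ) ^ η)⁻¹ := by
            rw [← Real.rpow_neg hX0.le, mul_assoc, ← Real.rpow_add hX0]
            nth_rewrite 2 [← Real.rpow_one (X : ℝ)]
            rw [← Real.rpow_add hX0]
            congr 1; rw [hεdef]; ring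
          rw [e1]; ring
  calc _ ≤ C₁ * (X : ℝ) ^ (1 - 2 * (η / 4)) + 2 * C₀ * (X : ℝ) ^ (1 - 2 * (η / 4)) :=
        (abs_add_le _ _).trans (add_le_add hA hB)
    _ = _ := by ring

theorem V1_S_zero (G : ℕ → ℝ) (X d : ℕ) :
    V1_S G X d 0 = ∑ n ∈ (Icc 1 X).filter (fun n => d ∣ n), G n := by
  classical
  unfold V1_S
  refine Finset.sum_congr rfl fun n _ => ?_
  have : V1_R 0 (n / d) := fun p _ hp => absurd hp (by omega)
  rw [if_pos this, one_mul]

theorem V1_b_le (z k : ℕ) : |V1_b z k| ≤ 1 := by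
  unfold V1_b
  split_ifs
  · have h : (0 : ℝ) ≤ (k.primeFactors.card : ℝ) := Nat.cast_nonneg _
    rw [abs_of_nonneg (by positivity), div_le_one (by positivity)]
    linarith
  · simp

theorem V1_a_le (X z m : ℕ) : |V1_a X z m| ≤ 1 := by
  unfold V1_a
  split_ifs <;> simp

/-- the inner sum of the sieve identity as a bilinear sum -/
theorem V1_toBil (G : ℕ → ℝ) (X D N q : ℕ) (hD : 1 ≤ D) (β : ℕ → ℝ)
    (hβ : ∀ m, β m ≠ 0 → D ≤ m ∧ m < N) (b : ℕ → ℝ)
    (hb : ∀ k, (V1_R q k → b k = 1) ∧ (¬ V1_R q k → b k = 0)) :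
    ∑ m ∈ range N, β m * V1_S G X m q =
      ∑ m ∈ Icc 1 X, ∑ n ∈ (Icc 1 X).filter (fun n => m ∣ n), β m * b (n / m) * G n := by
  classical
  have h1 : ∀ m, β m * V1_S G X m q =
      ∑ n ∈ (Icc 1 X).filter (fun n => m ∣ n), β m * b (n / m) * G n := by
    intro m
    unfold V1_S
    rw [Finset.mul_sum]
    refine Finset.sum_congr rfl fun n _ => ?_
    by_cases h : V1_R q (n / m)
    · rw [if_pos h, (hb _).1 h]; ring
    · rw [if_neg h, (hb _).2 h]; ring
  rw [Finset.sum_congr rfl fun m _ => h1 m]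
  have hz : ∀ m, (m ∉ range N ∨ m ∉ Icc 1 X) →
      ∑ n ∈ (Icc 1 X).filter (fun n => m ∣ n), β m * b (n / m) * G n = 0 := by
    intro m hm
    by_cases hβm : β m = 0
    · refine Finset.sum_eq_zero fun n _ => by rw [hβm]; ring
    · have h2 := hβ m hβm
      rcases hm with hm | hm
      · rw [mem_range] at hm; omega
      · rw [mem_Icc] at hm
        have h3 : X < m := by omega
        refine Finset.sum_eq_zero fun n hn => ?_
        rw [mem_filter, mem_Icc] at hn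
        have := Nat.le_of_dvd (by omega) hn.2
        omega
  have e1 : ∑ m ∈ range N, ∑ n ∈ (Icc 1 X).filter (fun n => m ∣ n), β m * b (n / m) * G n =
      ∑ m ∈ range (N + X + 1), ∑ n ∈ (Icc 1 X).filter (fun n => m ∣ n),
        β m * b (n / m) * G n := by
    refine Finset.sum_subset (fun m hm => ?_) fun m _ hm => hz m (Or.inl hm)
    rw [mem_range] at hm ⊢; omega
  have e2 : ∑ m ∈ Icc 1 X, ∑ n ∈ (Icc 1 X).filter (fun n => m ∣ n), β m * b (n / m) * G n =
      ∑ m ∈ range (N + X + 1), ∑ n ∈ (Icc 1 X).filter (fun n => m ∣ n),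
        β m * b (n / m) * G n := by
    refine Finset.sum_subset (fun m hm => ?_) fun m _ hm => hz m (Or.inr hm)
    rw [mem_Icc] at hm; rw [mem_range]; omega
  rw [e1, e2]

theorem sieve_assembly (F : ℕ → ℝ)
    (h0 : ∀ ε : ℝ, 0 < ε → ∃ C : ℝ, ∀ n : ℕ, 1 ≤ n → |F n| ≤ C * (n : ℝ) ^ ε)
    (h1 : ∃ δ₁ : ℝ, 0 < δ₁ ∧ ∃ δ₂ : ℝ, 0 < δ₂ ∧ ∃ C : ℝ, ∀ X : ℝ, 1 ≤ X → ∀ M : ℕ, 1 ≤ M →
      (M : ℝ) ≤ X ^ δ₁ → ∀ Y : ℕ, (Y : ℝ) ≤ X →
      |∑ n ∈ (Finset.Icc 1 Y).filter (fun n => M ∣ n), F n| ≤ C * X ^ (1 - δ₂))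
    (h2 : ∀ δ : ℝ, 0 < δ → ∃ δ₃ : ℝ, 0 < δ₃ ∧ ∃ C : ℝ, ∀ (M K : ℕ) (a b : ℕ → ℝ),
      1 ≤ M → 1 ≤ K → (∀ m, |a m| ≤ 1) → (∀ k, |b k| ≤ 1) →
      ((M : ℝ) * K) ^ δ ≤ M → ((M : ℝ) * K) ^ δ ≤ K →
      |∑ m ∈ Finset.Icc 1 M, ∑ k ∈ Finset.Icc 1 K,
        a m * b k * (if Squarefree (m * k) then F (m * k) else 0)| ≤ C * ((M : ℝ) * K) ^ (1 - δ₃)) :
    ∃ δ : ℝ, 0 < δ ∧ ∃ C : ℝ, ∀ X : ℕ, 1 ≤ X →
      |∑ p ∈ (Finset.Icc 1 X).filter Nat.Prime, F p| ≤ C * (X : ℝ) ^ (1 - δ) := by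
  classical
  obtain ⟨α₀, hα₀, hα₀1, C₁, hC₁, hI⟩ := V1_type1 F h0 h1
  set α := min α₀ (1 / 4) with hαdef
  have hα : 0 < α := by rw [hαdef]; positivity
  have hαα₀ : α ≤ α₀ := min_le_left _ _
  have hα4 : α ≤ 1 / 4 := min_le_right _ _
  obtain ⟨δ₄, hδ₄, hδ₄1, C₂, hC₂, hII⟩ := V1_bil F h0 h2 α hα
  set κ := min (δ₄ / 2) (1 / 4) with hκdef
  have hκ : 0 < κ := by rw [hκdef]; positivity
  have hκδ₄ : 2 * κ ≤ δ₄ := by
    have := min_le_left (δ₄ / 2) (1 / 4 : ℝ)
    rw [← hκdef] at this; linarith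
  have hκ4 : κ ≤ 1 / 4 := min_le_right _ _
  obtain ⟨δ₅, hδ₅, hδ₅1, C₃, hC₃, hII'⟩ := V1_bil F h0 h2 κ hκ
  obtain ⟨C₀₀, h0'⟩ := h0 (1 / 4) (by norm_num)
  set C₀ := |C₀₀| with hC₀def
  have hC₀ : 0 ≤ C₀ := abs_nonneg _
  set δ := min (min α κ) δ₅ with hδdef
  have hδ : 0 < δ := by rw [hδdef]; positivity
  have hδα : δ ≤ α := (min_le_left _ _).trans (min_le_left _ _)
  have hδκ : δ ≤ κ := (min_le_left _ _).trans (min_le_right _ _)
  have hδδ₅ : δ ≤ δ₅ := min_le_right _ _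
  refine ⟨δ, hδ, 2 * C₁ + 2 * C₂ + C₃ + 2 * C₀, ?_⟩
  intro X hX
  have hX0 : (0 : ℝ) < X := by exact_mod_cast hX
  have hX1 : (1 : ℝ) ≤ X := by exact_mod_cast hX
  set R := (X : ℝ) ^ (1 - δ) with hRdef
  have hR : 0 ≤ R := by rw [hRdef]; positivity
  rcases Nat.lt_or_ge 1 X with hX2 | hX2
  swap
  · have hXe : X = 1 := by omega
    have : (Finset.Icc 1 X).filter Nat.Prime = ∅ := by
      subst hXe
      ext p
      simp only [mem_filter, mem_Icc, notMem_empty, iff_false]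
      rintro ⟨⟨h3, h4⟩, h5⟩
      exact h5.one_lt.not_ge h4
    rw [this, Finset.sum_empty, abs_zero]
    positivity
  have hX1' : (1 : ℝ) < X := by exact_mod_cast hX2
  set D := ⌈(X : ℝ) ^ α⌉₊ with hDdef
  set z := ⌈(X : ℝ) ^ κ⌉₊ with hzdef
  have hXα1 : (1 : ℝ) < (X : ℝ) ^ α := Real.one_lt_rpow hX1' hα
  have hXκ1 : (1 : ℝ) < (X : ℝ) ^ κ := Real.one_lt_rpow hX1' hκ
  have hD2 : 1 < D := by
    have : (1 : ℝ) < D := hXα1.trans_le (Nat.le_ceil _)
    exact_mod_cast this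
  have hz2 : 1 < z := by
    have : (1 : ℝ) < z := hXκ1.trans_le (Nat.le_ceil _)
    exact_mod_cast this
  have hDlt : (D : ℝ) - 1 ≤ (X : ℝ) ^ α := by
    have := Nat.ceil_lt_add_one (show (0 : ℝ) ≤ (X : ℝ) ^ α by positivity)
    linarith
  have hzlt : (z : ℝ) - 1 ≤ (X : ℝ) ^ κ := by
    have := Nat.ceil_lt_add_one (show (0 : ℝ) ≤ (X : ℝ) ^ κ by positivity)
    linarith
  -- the sieve
  obtain ⟨A, β, k1, k2, k3, k4, k5⟩ := V1_sieve (V1_G F) X D z z le_rfl 1 le_rfl hD2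
  have hprime : ∀ d : ℕ, (∀ p, p.Prime → p ∣ d / 1 → p < z) → 1 ≤ d := by
    intro d hd
    rcases Nat.eq_zero_or_pos d with h | h
    · subst h
      obtain ⟨p, hp1, hp2⟩ := Nat.exists_infinite_primes z
      have := hd p hp2 (by simp)
      omega
    · exact h
  have hpartI : |∑ d ∈ range D, A d * V1_S (V1_G F) X d 0| ≤ 2 * C₁ * R := by
    calc |∑ d ∈ range D, A d * V1_S (V1_G F) X d 0|
        ≤ ∑ d ∈ range D, |A d * V1_S (V1_G F) X d 0| := Finset.abs_sum_le_sum_abs _ _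
      _ ≤ ∑ d ∈ range D, C₁ * (X : ℝ) ^ (1 - 2 * α₀) := by
          refine Finset.sum_le_sum fun d _ => ?_
          by_cases hAd : A d = 0
          · rw [hAd, zero_mul, abs_zero]; positivity
          · obtain ⟨h3, _, h5⟩ := k3 d hAd
            have hd1 := hprime d h5
            have hdX : (d : ℝ) ≤ (X : ℝ) ^ α₀ := by
              have h6 : (d : ℝ) ≤ (D : ℝ) - 1 := by
                have : (d : ℝ) + 1 ≤ D := by exact_mod_cast h3
                linarith
              exact (h6.trans hDlt).trans (Real.rpow_le_rpow_of_exponent_le hX1 hαα₀)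
            rw [abs_mul, V1_S_zero]
            calc |A d| * |∑ n ∈ (Icc 1 X).filter (fun n => d ∣ n), V1_G F n|
                ≤ 1 * (C₁ * (X : ℝ) ^ (1 - 2 * α₀)) :=
                  mul_le_mul (k1 d) (hI X hX d hd1 hdX) (abs_nonneg _) zero_le_one
              _ = _ := one_mul _
      _ = D * (C₁ * (X : ℝ) ^ (1 - 2 * α₀)) := by
          rw [Finset.sum_const, card_range, nsmul_eq_mul]
      _ ≤ (2 * (X : ℝ) ^ α) * (C₁ * (X : ℝ) ^ (1 - 2 * α₀)) := by
          apply mul_le_mul_of_nonneg_right _ (by positivity)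
          linarith
      _ = 2 * C₁ * ((X : ℝ) ^ α * (X : ℝ) ^ (1 - 2 * α₀)) := by ring
      _ ≤ 2 * C₁ * R := by
          apply mul_le_mul_of_nonneg_left _ (by positivity)
          rw [← Real.rpow_add hX0]
          exact Real.rpow_le_rpow_of_exponent_le hX1 (by linarith)
  have hpartII : |∑ q ∈ range z, ∑ m ∈ range ((D - 1) * (z - 1) + 1),
      β q m * V1_S (V1_G F) X m q| ≤ 2 * C₂ * R := by
    calc |∑ q ∈ range z, ∑ m ∈ range ((D - 1) * (z - 1) + 1), β q m * V1_S (V1_G F) X m q|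
        ≤ ∑ q ∈ range z, |∑ m ∈ range ((D - 1) * (z - 1) + 1),
          β q m * V1_S (V1_G F) X m q| := Finset.abs_sum_le_sum_abs _ _
      _ ≤ ∑ q ∈ range z, C₂ * (X : ℝ) ^ (1 - δ₄) := by
          refine Finset.sum_le_sum fun q _ => ?_
          rw [V1_toBil (V1_G F) X D ((D - 1) * (z - 1) + 1) q (by omega) (β q)
            (fun m hm => ⟨(k4 q m hm).1, by have := (k4 q m hm).2.1; omega⟩)
            (fun k => if V1_R q k then 1 else 0)
            (fun k => ⟨fun h => if_pos h, fun h => if_neg h⟩)]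
          refine hII X (β q) (fun k => if V1_R q k then 1 else 0) hX (k2 q) ?_ ?_
          · intro k; split_ifs <;> simp
          · intro m hm
            obtain ⟨h3, h4, _, _⟩ := k4 q m hm
            constructor
            · calc (X : ℝ) ^ α ≤ D := Nat.le_ceil _
                _ ≤ m := by exact_mod_cast h3
            · have h5 : (m : ℝ) ≤ ((D : ℝ) - 1) * ((z : ℝ) - 1) := by
                have h6 : (m : ℝ) ≤ (((D - 1) * (z - 1) : ℕ) : ℝ) := by exact_mod_cast h4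
                rwa [Nat.cast_mul, Nat.cast_sub hD2.le, Nat.cast_sub hz2.le, Nat.cast_one] at h6
              have hD1 : (0 : ℝ) ≤ (D : ℝ) - 1 := by
                have : (1 : ℝ) < D := by exact_mod_cast hD2
                linarith
              have hz1 : (0 : ℝ) ≤ (z : ℝ) - 1 := by
                have : (1 : ℝ) < z := by exact_mod_cast hz2
                linarith
              calc (m : ℝ) ≤ ((D : ℝ) - 1) * ((z : ℝ) - 1) := h5
                _ ≤ (X : ℝ) ^ α * (X : ℝ) ^ κ := mul_le_mul hDlt hzlt hz1 (by positivity)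
                _ = (X : ℝ) ^ (α + κ) := by rw [Real.rpow_add hX0]
                _ ≤ (X : ℝ) ^ (1 - α) := Real.rpow_le_rpow_of_exponent_le hX1 (by linarith)
      _ = z * (C₂ * (X : ℝ) ^ (1 - δ₄)) := by
          rw [Finset.sum_const, card_range, nsmul_eq_mul]
      _ ≤ (2 * (X : ℝ) ^ κ) * (C₂ * (X : ℝ) ^ (1 - δ₄)) := by
          apply mul_le_mul_of_nonneg_right _ (by positivity)
          linarith
      _ = 2 * C₂ * ((X : ℝ) ^ κ * (X : ℝ) ^ (1 - δ₄)) := by ring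
      _ ≤ 2 * C₂ * R := by
          apply mul_le_mul_of_nonneg_left _ (by positivity)
          rw [← Real.rpow_add hX0]
          exact Real.rpow_le_rpow_of_exponent_le hX1 (by linarith)
  have hpartIII : |∑ m ∈ Icc 1 X, ∑ n ∈ (Icc 1 X).filter (fun n => m ∣ n),
        V1_a X z m * V1_b z (n / m) * V1_G F n| ≤ C₃ * R := by
    refine (hII' X (V1_a X z) (V1_b z) hX (V1_a_le X z) (V1_b_le z) ?_).trans ?_
    · intro m hm
      have hm' : m.Prime ∧ z ≤ m ∧ m * z ≤ X := by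
        by_contra h
        apply hm; unfold V1_a; rw [if_neg h]
      obtain ⟨_, h3, h4⟩ := hm'
      constructor
      · calc (X : ℝ) ^ κ ≤ z := Nat.le_ceil _
          _ ≤ m := by exact_mod_cast h3
      · have hκpos : (0 : ℝ) < (X : ℝ) ^ κ := by positivity
        rw [Real.rpow_sub hX0, Real.rpow_one, le_div_iff₀ hκpos]
        calc (m : ℝ) * (X : ℝ) ^ κ ≤ m * z :=
              mul_le_mul_of_nonneg_left (Nat.le_ceil _) (Nat.cast_nonneg _)
          _ ≤ X := by exact_mod_cast h4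
    · apply mul_le_mul_of_nonneg_left _ hC₃
      exact Real.rpow_le_rpow_of_exponent_le hX1 (by linarith)
  have hhalf : (X : ℝ) ^ (1 / 2 : ℝ) ≤ R := Real.rpow_le_rpow_of_exponent_le hX1 (by linarith)
  have hF : ∀ n, 1 ≤ n → n ≤ X → |F n| ≤ C₀ * (X : ℝ) ^ (1 / 4 : ℝ) := by
    intro n hn hnX
    refine (h0' n hn).trans ?_
    have h3 : (n : ℝ) ^ (1 / 4 : ℝ) ≤ (X : ℝ) ^ (1 / 4 : ℝ) :=
      Real.rpow_le_rpow (Nat.cast_nonneg _) (by exact_mod_cast hnX) (by norm_num)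
    calc C₀₀ * (n : ℝ) ^ (1 / 4 : ℝ) ≤ C₀ * (n : ℝ) ^ (1 / 4 : ℝ) :=
          mul_le_mul_of_nonneg_right (le_abs_self _) (by positivity)
      _ ≤ _ := mul_le_mul_of_nonneg_left h3 hC₀
  have hquart : (X : ℝ) ^ (1 / 4 : ℝ) ≤ (X : ℝ) ^ (1 / 2 : ℝ) :=
    Real.rpow_le_rpow_of_exponent_le hX1 (by norm_num)
  have hone : |∑ n ∈ Icc 1 X, if n = 1 then F 1 else 0| ≤ C₀ * R := by
    have e : (∑ n ∈ Icc 1 X, if n = 1 then F 1 else 0) = F 1 := by
      rw [Finset.sum_ite_eq' (Icc 1 X) 1 (fun _ => F 1), if_pos (by rw [mem_Icc]; omega)]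
    rw [e]
    exact (hF 1 le_rfl hX).trans (mul_le_mul_of_nonneg_left (hquart.trans hhalf) hC₀)
  have hsmall : |∑ p ∈ (Icc 1 X).filter (fun p => p.Prime ∧ p < z), F p| ≤ C₀ * R := by
    calc |∑ p ∈ (Icc 1 X).filter (fun p => p.Prime ∧ p < z), F p|
        ≤ ∑ p ∈ (Icc 1 X).filter (fun p => p.Prime ∧ p < z), |F p| :=
          Finset.abs_sum_le_sum_abs _ _
      _ ≤ ∑ p ∈ (Icc 1 X).filter (fun p => p.Prime ∧ p < z), C₀ * (X : ℝ) ^ (1 / 4 : ℝ) := by
          refine Finset.sum_le_sum fun p hp => ?_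
          rw [mem_filter, mem_Icc] at hp
          exact hF p hp.1.1 hp.1.2
      _ = ((Icc 1 X).filter (fun p => p.Prime ∧ p < z)).card * (C₀ * (X : ℝ) ^ (1 / 4 : ℝ)) := by
          rw [Finset.sum_const, nsmul_eq_mul]
      _ ≤ (X : ℝ) ^ κ * (C₀ * (X : ℝ) ^ (1 / 4 : ℝ)) := by
          apply mul_le_mul_of_nonneg_right _ (by positivity)
          have hsub : (Icc 1 X).filter (fun p => p.Prime ∧ p < z) ⊆ Icc 1 (z - 1) := by
            intro p hp
            rw [mem_filter, mem_Icc] at hp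
            rw [mem_Icc]; omega
          have h3 := Finset.card_le_card hsub
          rw [Nat.card_Icc, Nat.add_sub_cancel] at h3
          have h4 : ((z - 1 : ℕ) : ℝ) = (z : ℝ) - 1 := by
            rw [Nat.cast_sub hz2.le, Nat.cast_one]
          calc (((Icc 1 X).filter (fun p => p.Prime ∧ p < z)).card : ℝ) ≤ ((z - 1 : ℕ) : ℝ) := by
                exact_mod_cast h3
            _ ≤ (X : ℝ) ^ κ := by rw [h4]; exact hzlt
      _ = C₀ * ((X : ℝ) ^ κ * (X : ℝ) ^ (1 / 4 : ℝ)) := by ring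
      _ ≤ C₀ * R := by
          apply mul_le_mul_of_nonneg_left _ hC₀
          rw [← Real.rpow_add hX0]
          exact (Real.rpow_le_rpow_of_exponent_le hX1 (by linarith)).trans hhalf
  have hom := V1_omega F X z
  rw [k5] at hom
  have hsplit : ∑ p ∈ (Finset.Icc 1 X).filter Nat.Prime, F p =
      ∑ p ∈ (Icc 1 X).filter (fun p => p.Prime ∧ p < z), F p +
      ∑ p ∈ (Icc 1 X).filter (fun p => p.Prime ∧ z ≤ p), F p := by
    rw [← Finset.sum_filter_add_sum_filter_not ((Finset.Icc 1 X).filter Nat.Prime) (fun p => p < z),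
      Finset.filter_filter, Finset.filter_filter]
    simp only [not_lt]
  rw [hsplit]
  have habs := abs_le.1 hpartI
  have habs2 := abs_le.1 hpartII
  have habs3 := abs_le.1 hpartIII
  have habs4 := abs_le.1 hone
  have habs5 := abs_le.1 hsmall
  rw [abs_le]
  constructor <;> linarith [habs.1, habs.2, habs2.1, habs2.2, habs3.1, habs3.2, habs4.1, habs4.2,
    habs5.1, habs5.2]

end Pool.Agent.TM32
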